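import Pool.Agent.BBQ.Global
import Pool.Agent.MPC.FracG

/-!
# A common unit, the general case
-/

set_option autoImplicit false

namespace Pool.Agent.BBQ

open Pool.Agent.MPC Pool.Agent.WBP Pool.Agent.SavChen

/-- splittings give packings -/
theorem pack_of_splits' {X : Type} [Fintype X] [DecidableEq X] {m : ℕ} (a : X → ZMod m) (D : ℕ)
    {q : ℕ} (h : Splits (fun w : X × Fin D => a w.1) Finset.univ q) :
    Pack a (fun _ => D) q := by
  classical
  obtain ⟨e, b, h1, h2, h3, h4⟩ := h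
  let n : Fin e → X → ℕ := fun B x =>
    (Finset.univ.filter fun w : X × Fin D => b w = B.1 ∧ w.1 = x).card
  refine ⟨e, n, h1, fun B => ?_, fun B => ?_, fun x => ?_⟩
  · obtain ⟨w, -, hw⟩ := h3 B.1 B.2
    refine ⟨w.1, ?_⟩
    rw [← Nat.pos_iff_ne_zero]
    exact Finset.card_pos.2 ⟨w, by simp [hw]⟩
  · rw [← h4 B.1 B.2, ← Finset.sum_fiberwise (Finset.univ.filter fun w => b w = B.1)
      (fun w : X × Fin D => w.1)]
    apply Finset.sum_congr rfl
    intro x _
    rw [Finset.filter_filter, Finset.sum_congr rfl (g := fun _ => a x) (fun w hw => by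
      rw [(Finset.mem_filter.1 hw).2.2]), Finset.sum_const]
  · change ∑ B : Fin e, (Finset.univ.filter fun w : X × Fin D => b w = B.1 ∧ w.1 = x).card = D
    have h5 : (Finset.univ.filter fun w : X × Fin D => w.1 = x).card = D := by
      have h6 : (Finset.univ.filter fun w : X × Fin D => w.1 = x) =
          ({x} : Finset X) ×ˢ (Finset.univ : Finset (Fin D)) := by
        ext w
        simp only [Finset.mem_filter, Finset.mem_univ, true_and, Finset.mem_product,
          Finset.mem_singleton, and_true]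
      rw [h6, Finset.card_product, Finset.card_univ, Fintype.card_fin, Finset.card_singleton,
        one_mul]
    conv_rhs => rw [← h5]
    rw [Finset.card_eq_sum_card_fiberwise
      (s := Finset.univ.filter fun w : X × Fin D => w.1 = x)
      (f := fun w => (⟨b w, h2 w (Finset.mem_univ w)⟩ : Fin e)) (t := Finset.univ)
      (fun w _ => Finset.mem_univ _)]
    apply Finset.sum_congr rfl
    intro B _
    rw [Finset.filter_filter]
    congr 1
    ext w
    simp only [Finset.mem_filter, Finset.mem_univ, true_and, Fin.ext_iff]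
    exact and_comm

lemma emb_val {d M : ℕ} [NeZero d] [NeZero M] (h : d ∣ M) (x : ZMod d) :
    (emb h x).val = M / d * x.val := by
  have h1 : x = (x.val : ZMod d) := by simp
  conv_lhs => rw [h1]
  rw [emb_natCast, ZMod.val_natCast, Nat.mod_eq_of_lt]
  have h2 : 0 < M / d := Nat.div_pos (Nat.le_of_dvd (NeZero.pos M) h) (NeZero.pos d)
  calc M / d * x.val < M / d * d := Nat.mul_lt_mul_of_pos_left (ZMod.val_lt x) h2
    _ = M := Nat.div_mul_cancel h

lemma emb_units {d M : ℕ} [NeZero d] [NeZero M] (h : d ∣ M) (u : (ZMod M)ˣ) (x : ZMod d) :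
    (u : ZMod M) * emb h x = emb h (((ZMod.unitsMap h u : (ZMod d)ˣ) : ZMod d) * x) := by
  have h1 : ((ZMod.unitsMap h u : (ZMod d)ˣ) : ZMod d) = (((u : ZMod M).val : ℕ) : ZMod d) := by
    rw [ZMod.unitsMap_val, ZMod.cast_eq_val]
  have h2 : x = (x.val : ZMod d) := by simp
  have h3 : (u : ZMod M) = (((u : ZMod M).val : ℕ) : ZMod M) := by simp
  rw [h1, h3, h2, ← Nat.cast_mul, emb_natCast, emb_natCast, ← Nat.cast_mul]
  simp only [ZMod.natCast_val, ZMod.cast_id', id]
  congr 1
  ring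

variable {I : Type} [Fintype I] {X : I → Type} [∀ i, Fintype (X i)] {d : I → ℕ} {M : ℕ}
  [DecidableEq I] [∀ i, DecidableEq (X i)] [∀ i, NeZero (d i)] [NeZero M]

/-- there are no zeros -/
theorem ne_zero_of_not_many (hM : ∀ i, d i ∣ M) (a : ∀ i, X i → ZMod (d i)) (κ : I → ℕ)
    {q w : ∀ i, X i → ℕ} (i : I) (hqw : ∀ x, q i x * w i x = d i) (hw : ∀ x, w i x < d i)
    (hqa : ∀ x, (q i x : ZMod (d i)) * a i x = 0) (ha0 : a i ≠ 0) (hsum : ∑ x, a i x = 0)
    (h1 : ∀ x, κ i * d i + w i x < ∑ x, w i x + d i)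
    (h2 : κ i * d i ≤ ∑ x, w i x ∨ κ i * d i < ∑ x, max 2 (w i x))
    (H : ¬ Many hM a κ) (x : X i) : a i x ≠ 0 := by
  classical
  have hinj : Function.Injective (fun _ : Fin 1 => i) := fun c c' _ => Subsingleton.elim c c'
  obtain ⟨j₀, hj₀⟩ := Function.ne_iff.1 ha0
  intro hx
  apply H
  by_cases hk : κ i * d i ≤ ∑ x, w i x
  · exact many_of_pattern hM a κ (hM i) hinj (a' := fun y => a i y.2) (fun y => rfl)
      (exists_pattern_of_ne (J := fun _ : Fin 1 => X i) (q := fun x => q i x.2)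
        (w := fun x => w i x.2) (fun x => hqw x.2) (NeZero.pos (d i)) (fun x => hw x.2)
        (a := fun y => a i y.2) (fun x => hqa x.2) (δ := fun _ => κ i) (fun _ _ => hk)
        (Or.inr ⟨0, j₀, hj₀, Or.inl ⟨x, hx⟩⟩))
  · have hN : κ i * d i < ∑ x, max 2 (w i x) := h2.resolve_left hk
    rcases exists_pattern_or_unit (J := fun _ : Fin 1 => X i) (q := fun x => q i x.2)
      (w := fun x => w i x.2) (fun x => hqw x.2) (fun x => hw x.2) (a := fun x => a i x.2)
      (fun x => hqa x.2) (fun _ => ⟨j₀, hj₀⟩) (fun _ => hsum) (δ := fun _ => κ i)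
      (fun _ => hN.le) ⟨0, hN⟩ (fun _ j => h1 j) with h | ⟨u, hu⟩
    · exact many_of_pattern hM a κ (hM i) hinj (a' := fun y => a i y.2) (fun y => rfl) h
    · exact absurd hx ((hu 0).1 x)

/-- the sums of the representatives are not small -/
lemma le_sum_val {X : Type} [Fintype X] {d : ℕ} [NeZero d] {a : X → ZMod d} (ha : ∀ x, a x ≠ 0)
    {q w : X → ℕ} (hqw : ∀ x, q x * w x = d) (hqa : ∀ x, (q x : ZMod d) * a x = 0)
    (hsum : ∑ x, a x = 0) {κ : ℕ} (h1 : κ * d < ∑ x, w x + d) (u : (ZMod d)ˣ) :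
    d * κ ≤ ∑ x, ((u : ZMod d) * a x).val := by
  have h4 : d ∣ ∑ x, ((u : ZMod d) * a x).val := by
    rw [← ZMod.natCast_eq_zero_iff, Nat.cast_sum]
    rw [Finset.sum_congr rfl fun x _ => ZMod.natCast_zmod_val _, ← Finset.mul_sum, hsum, mul_zero]
  have h5 : ∑ x, w x ≤ ∑ x, ((u : ZMod d) * a x).val :=
    Finset.sum_le_sum fun x _ => WBP.le_val (hqw x) (by rw [mul_left_comm, hqa, mul_zero])
      fun h => ha x ((Units.mul_right_eq_zero u).1 h)
  obtain ⟨e, he⟩ := h4
  rw [he] at h5 ⊢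
  apply Nat.mul_le_mul_left
  have h7 : d * κ < d * (e + 1) := by
    have : d * (e + 1) = d * e + d := by ring
    have : d * κ = κ * d := mul_comm _ _
    omega
  exact Nat.lt_succ_iff.1 (Nat.lt_of_mul_lt_mul_left h7)

/-- **Many blocks or a common unit, the general case.** -/
theorem many_or_common_general (hM : ∀ i, d i ∣ M) (a : ∀ i, X i → ZMod (d i)) (κ : I → ℕ)
    {q w : ∀ i, X i → ℕ} (hqw : ∀ i x, q i x * w i x = d i) (hw : ∀ i x, w i x < d i)
    (hqa : ∀ i x, (q i x : ZMod (d i)) * a i x = 0) (ha0 : ∀ i, a i ≠ 0)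
    (hsum : ∀ i, ∑ x, a i x = 0) (h1 : ∀ i x, κ i * d i + w i x < ∑ x, w i x + d i)
    (h2 : ∀ i, κ i * d i ≤ ∑ x, w i x ∨ κ i * d i < ∑ x, max 2 (w i x))
    (h3 : ∀ i i', (κ i * d i ≤ ∑ x, w i x ∨ Even (d i) ∨ κ i * (d i + 1) < ∑ x, max 2 (w i x)) ∨
      (κ i' * d i' ≤ ∑ x, w i' x ∨ Even (d i') ∨ κ i' * (d i' + 1) < ∑ x, max 2 (w i' x)) ∨
      (3 ∣ d i ↔ 3 ∣ d i')) : Many hM a κ ∨ Common M a κ w := by
  classical
  by_cases H : Many hM a κ
  · exact Or.inl H
  have ha : ∀ i x, a i x ≠ 0 := fun i x => ne_zero_of_not_many hM a κ i (hqw i) (hw i) (hqa i)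
    (ha0 i) (hsum i) (h1 i) (h2 i) H x
  have hval : ∀ (u : (ZMod M)ˣ) i x, ((u : ZMod M) * fam hM a ⟨i, x⟩).val =
      M / d i * (((ZMod.unitsMap (hM i) u : (ZMod (d i))ˣ) : ZMod (d i)) * a i x).val := by
    intro u i x
    change ((u : ZMod M) * emb (hM i) (a i x)).val = _
    rw [emb_units, emb_val]
  have hdM : ∀ i, M / d i * d i = M := fun i => Nat.div_mul_cancel (hM i)
  rcases frac_general (fam hM a) (fun y h => ha y.1 y.2 (emb_eq_zero _ h)) (fun i => by
      change ∑ x, emb (hM i) (a i x) = 0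
      rw [← map_sum, hsum, map_zero]) d hM (fun y => by
      change (d y.1 : ZMod M) * emb (hM y.1) (a y.1 y.2) = 0
      rw [← nsmul_eq_mul, ← map_nsmul, nsmul_eq_mul, ZMod.natCast_self, zero_mul, map_zero]) κ
      (fun y => w y.1 y.2) (fun y => ⟨q y.1 y.2, order_pos (hqw y.1) y.2, by
        change (q y.1 y.2 : ZMod M) * emb (hM y.1) (a y.1 y.2) = 0
        rw [← nsmul_eq_mul, ← map_nsmul, nsmul_eq_mul, hqa, map_zero], by
        rw [mul_comm, hqw]⟩) (fun i => by
        rcases h2 i with h | h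
        · right
          rw [mul_comm]
          exact h
        · left
          rw [mul_comm]
          exact h) (fun i i' => by
        rcases h3 i i' with (h | h | h) | (h | h | h) | h
        · exact Or.inl (Or.inr (Or.inr (by rw [mul_comm]; exact h)))
        · exact Or.inl (Or.inl h)
        · exact Or.inl (Or.inr (Or.inl (by rw [mul_comm]; exact h)))
        · exact Or.inr (Or.inl (Or.inr (Or.inr (by rw [mul_comm]; exact h))))
        · exact Or.inr (Or.inl (Or.inl h))
        · exact Or.inr (Or.inl (Or.inr (Or.inl (by rw [mul_comm]; exact h))))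
        · exact Or.inr (Or.inr h)) (fun u i => by
        rw [Finset.sum_congr rfl fun x _ => hval u i x, ← Finset.mul_sum]
        conv_lhs => rw [← hdM i]
        rw [mul_assoc]
        apply Nat.mul_le_mul_left
        obtain ⟨x, -⟩ := Function.ne_iff.1 (ha0 i)
        exact le_sum_val (ha i) (hqw i) (hqa i) (hsum i) (by have := h1 i x; omega) _) with
    ⟨u, hu⟩ | ⟨D, hD, hS⟩
  · right
    refine ⟨((u⁻¹ : (ZMod M)ˣ) : ZMod M).val, ZMod.val_coe_unit_coprime _, fun i => ?_⟩
    refine ⟨fun x => (((ZMod.unitsMap (hM i) u : (ZMod (d i))ˣ) : ZMod (d i)) * a i x).val,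
      fun x => ?_, fun x => dvd_val (hqw i) (hqa i) _ x, ?_, fun x => ?_, ha i⟩
    · exact Nat.pos_of_ne_zero fun h =>
        ha i x ((Units.mul_right_eq_zero _).1 ((ZMod.val_eq_zero _).1 h))
    · have h4 := hu i
      rw [Finset.sum_congr rfl fun x _ => hval u i x, ← Finset.mul_sum] at h4
      conv_rhs at h4 => rw [← hdM i]
      rw [mul_assoc] at h4
      have h5 : 0 < M / d i :=
        Nat.div_pos (Nat.le_of_dvd (NeZero.pos M) (hM i)) (NeZero.pos (d i))
      rw [Nat.eq_of_mul_eq_mul_left h5 h4, mul_comm]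
    · rw [Nat.cast_mul, ZMod.natCast_zmod_val, ← mul_assoc]
      have h4 : ((((u⁻¹ : (ZMod M)ˣ) : ZMod M).val : ℕ) : ZMod (d i)) =
          (((ZMod.unitsMap (hM i) u)⁻¹ : (ZMod (d i))ˣ) : ZMod (d i)) := by
        rw [← map_inv, ZMod.unitsMap_val, ZMod.cast_eq_val]
      rw [h4, Units.inv_mul, one_mul]
  · left
    refine ⟨fun _ => D, D * ∑ i, κ i + 1, fun i _ => ha0 i, ?_, ?_⟩
    · have h4 : (fun y : (Σ i, X i) => if a y.1 y.2 = 0 then 0 else D) = fun _ => D := by
        funext y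
        rw [if_neg (ha y.1 y.2)]
      rw [h4]
      exact pack_of_splits' _ D hS
    · have h4 : ∀ i, (Finset.univ.filter fun x => a i x ≠ 0).card = Fintype.card (X i) := by
        intro i
        rw [Finset.filter_true_of_mem fun x _ => ha i x, Finset.card_univ]
      simp only [h4]
      rw [← Finset.mul_sum, ← Finset.mul_sum, Finset.sum_add_distrib]
      have h5 : D * (∑ i, κ i + ∑ i, Fintype.card (X i)) =
          D * ∑ i, Fintype.card (X i) + D * ∑ i, κ i := by ring
      omega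

end Pool.Agent.BBQ
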