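import Pool.Agent.BBQ.Bridge
import Pool.Agent.BBQ.General

/-!
# The hypothesis on the characters, the general case
-/

set_option autoImplicit false

noncomputable section

namespace Pool.Agent.BBQ

open Pool.Agent.ZCyc Pool.Agent.BBM Pool.Agent.BBP
open Pool.Agent.GBB (zeta psi chi Typ zeta_prim zeta_pow psi_zero psi_add)

variable {S : Type} [Fintype S] [DecidableEq S] {Φ : Fam S} [∀ s, NeZero (Φ.d s)]

/-- **The hypothesis on the characters.** -/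
theorem chars_general (w : ∀ s, Fin (Φ.N s) → ℕ)
    (hw : ∀ s j, w s j ∣ Φ.d s ∧ w s j < Φ.d s)
    (hH : ∀ s (ζ : Fin (Φ.N s) → rootsOfUnity (Φ.d s) ℂ), (∀ j, (ζ j) ^ w s j = 1) → ζ ∈ Φ.H s)
    (h1 : ∀ s j, Φ.r s * Φ.d s + w s j < ∑ j, w s j + Φ.d s)
    (h2 : ∀ s, Φ.r s * Φ.d s ≤ ∑ j, w s j ∨ Φ.r s * Φ.d s < ∑ j, max 2 (w s j))
    (h3 : ∀ s s', (Φ.r s * Φ.d s ≤ ∑ j, w s j ∨ Even (Φ.d s) ∨
      Φ.r s * (Φ.d s + 1) < ∑ j, max 2 (w s j)) ∨ (Φ.r s' * Φ.d s' ≤ ∑ j, w s' j ∨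
      Even (Φ.d s') ∨ Φ.r s' * (Φ.d s' + 1) < ∑ j, max 2 (w s' j)) ∨
      (3 ∣ Φ.d s ↔ 3 ∣ Φ.d s'))
    (hB : ∀ s, ∀ b : Fin (Φ.N s) → ℕ, (∀ j, 0 < b j) → (∀ j, w s j ∣ b j) →
      ∑ j, b j = Φ.r s * Φ.d s → ∃ B : Fin (Φ.N s) → Fin (Φ.r s),
        ∀ i, ∑ j with B j = i, b j = Φ.d s)
    (m : S → ℕ) (a : ∀ i : Idx m, Fin (Φ.N i.1) → ZMod (Φ.d i.1))
    (haH : ∀ i, a i ∈ Φ.Chars i.1) (ha0 : ∀ i, a i ≠ 0) (hsum : ∀ i, ∑ j, a i j = 0) :
    (∀ p : Pts Φ.P m, E a p = 0) ∨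
      ∃ (t : ∀ i : Idx m, (ZMod (Φ.d i.1))ˣ) (b : ∀ i : Idx m, Fin (Φ.N i.1) → ℕ),
        (∀ i, Typ (Φ.r i.1) (a i) (t i) (b i)) ∧
        ∀ i i', (t i : ZMod (Φ.d i.1)).val ≡ (t i' : ZMod (Φ.d i'.1)).val
          [MOD Nat.gcd (Φ.d i.1) (Φ.d i'.1)] := by
  classical
  set M : ℕ := ∏ s, Φ.d s with hMdef
  have : NeZero M := ⟨Finset.prod_ne_zero_iff.2 fun s _ => NeZero.ne (Φ.d s)⟩
  have hM : ∀ i : Idx m, Φ.d i.1 ∣ M := fun i => Finset.dvd_prod_of_mem _ (Finset.mem_univ i.1)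
  choose q hq using fun s j => (hw s j).1
  have hqw : ∀ s j, q s j * w s j = Φ.d s := fun s j => by rw [mul_comm, ← hq s j]
  have hqa : ∀ (i : Idx m) j, (q i.1 j : ZMod (Φ.d i.1)) * a i j = 0 := by
    intro i j
    have h4 := haH i (Pi.single j (q i.1 j : ZMod (Φ.d i.1))) (by
      apply hH
      intro l
      apply Subtype.ext
      change (zeta (Φ.d i.1) ^ ((Pi.single j (q i.1 j : ZMod (Φ.d i.1)) :
        Fin (Φ.N i.1) → ZMod (Φ.d i.1)) l).val) ^ w i.1 l = 1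
      by_cases hl : l = j
      · subst hl
        rw [Pi.single_eq_same, ZMod.val_natCast, ← pow_mul]
        have h5 : Φ.d i.1 ∣ q i.1 l % Φ.d i.1 * w i.1 l := by
          rw [← ZMod.natCast_eq_zero_iff]
          push_cast
          rw [ZMod.natCast_mod, ← Nat.cast_mul, hqw, ZMod.natCast_self]
        obtain ⟨e, he⟩ := h5
        rw [he, pow_mul, zeta_pow, one_pow]
      · rw [Pi.single_eq_of_ne hl, ZMod.val_zero, pow_zero, one_pow])
    rw [Finset.sum_eq_single j] at h4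
    · rwa [Pi.single_eq_same, mul_comm] at h4
    · intro l _ hl
      rw [Pi.single_eq_of_ne hl, mul_zero]
    · simp
  rcases many_or_common_general hM a (fun i => Φ.r i.1) (q := fun i => q i.1)
    (w := fun i => w i.1) (fun i j => hqw i.1 j) (fun i j => (hw i.1 j).2) hqa ha0 hsum
    (fun i j => h1 i.1 j) (fun i => h2 i.1) (fun i i' => h3 i.1 i'.1) with h | ⟨T, hT, h⟩
  · left
    obtain ⟨D, q', hD, hP, hlt⟩ := h
    intro p
    refine E_zero_of_pack hM a hsum hD hP ?_ p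
    simpa only [Fintype.card_fin] using hlt
  · right
    choose b hb1 hb2 hb3 hb4 hb5 using h
    have hTd : ∀ i : Idx m, Nat.Coprime T (Φ.d i.1) := fun i =>
      Nat.Coprime.coprime_dvd_right (hM i) hT
    refine ⟨fun i => ZMod.unitOfCoprime T (hTd i), b, fun i => ?_, fun i i' => ?_⟩
    · obtain ⟨B, hBs⟩ := hB i.1 (b i) (hb1 i) (hb2 i) (hb3 i)
      refine ⟨hb1 i, hb3 i, fun j => ?_, hb5 i, B, ?_, ?_⟩
      · rw [hb4 i j, ZMod.coe_unitOfCoprime, Nat.cast_mul]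
      · intro s
        by_contra hcon
        push Not at hcon
        have h5 := hBs s
        rw [Finset.sum_eq_zero (fun j hj => absurd (Finset.mem_filter.1 hj).2 (hcon j))] at h5
        exact NeZero.ne (Φ.d i.1) h5.symm
      · intro s
        have h5 : ∀ j, a i j = (T : ZMod (Φ.d i.1)) * (b i j : ZMod (Φ.d i.1)) := fun j => by
          rw [hb4 i j, Nat.cast_mul]
        rw [Finset.sum_congr rfl fun j _ => h5 j, ← Finset.mul_sum, ← Nat.cast_sum, hBs s,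
          ZMod.natCast_self, mul_zero]
    · have h5 : ∀ i : Idx m, ((ZMod.unitOfCoprime T (hTd i) : (ZMod (Φ.d i.1))ˣ) :
          ZMod (Φ.d i.1)).val ≡ T [MOD Φ.d i.1] := by
        intro i
        rw [ZMod.coe_unitOfCoprime, ZMod.val_natCast]
        exact Nat.mod_modEq _ _
      exact ((h5 i).of_dvd (Nat.gcd_dvd_left _ _)).trans
        ((h5 i').of_dvd (Nat.gcd_dvd_right _ _)).symm

end Pool.Agent.BBQ
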