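import Pool.Agent.BBQ.Removal

/-!
# Two sequences with incompatible units

The sequences `a i` over `ℤ/(d i)` are considered as sequences over `ℤ/M`, where `M` is a common
multiple of the `d i`. If the units which belong to two of them are not compatible then there is a
zero-sum block of weight less than one with elements of both sequences.
-/

set_option autoImplicit false

namespace Pool.Agent.BBQ

/-- the embedding of `ℤ/d` into `ℤ/M` -/
def emb {d M : ℕ} (h : d ∣ M) : ZMod d →+ ZMod M :=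
  ZMod.lift d ⟨(AddMonoidHom.mulLeft ((M / d : ℕ) : ZMod M)).comp (Int.castAddHom (ZMod M)), by
    change ((M / d : ℕ) : ZMod M) * ((d : ℤ) : ZMod M) = 0
    rw [Int.cast_natCast, ← Nat.cast_mul, Nat.div_mul_cancel h, ZMod.natCast_self]⟩

theorem emb_natCast {d M : ℕ} (h : d ∣ M) (n : ℕ) :
    emb h (n : ZMod d) = ((M / d * n : ℕ) : ZMod M) := by
  have h1 : ((n : ℕ) : ZMod d) = ((n : ℤ) : ZMod d) := by simp
  rw [h1, emb, ZMod.lift_coe]
  change ((M / d : ℕ) : ZMod M) * ((n : ℤ) : ZMod M) = _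
  rw [Int.cast_natCast, Nat.cast_mul]

theorem emb_eq_zero {d M : ℕ} [NeZero d] [NeZero M] (h : d ∣ M) {x : ZMod d} (hx : emb h x = 0) :
    x = 0 := by
  have h1 : x = (x.val : ZMod d) := by simp
  rw [h1, emb_natCast, ZMod.natCast_eq_zero_iff] at hx
  obtain ⟨c, hc⟩ := h
  have hd0 : 0 < d := NeZero.pos d
  have hM0 : 0 < M := NeZero.pos M
  have hc0 : 0 < c := by
    rcases Nat.eq_zero_or_pos c with h | h
    · rw [h, mul_zero] at hc
      omega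
    · exact h
  have h2 : M / d = c := by
    rw [hc, Nat.mul_div_cancel_left c hd0]
  rw [h2, hc, mul_comm d c] at hx
  have h3 := Nat.dvd_of_mul_dvd_mul_left hc0 hx
  rw [h1, ZMod.natCast_eq_zero_iff]
  exact h3

section Family

variable {I : Type} {X : I → Type} {d : I → ℕ} {M : ℕ}

/-- the union of the sequences -/
def fam (hM : ∀ i, d i ∣ M) (a : ∀ i, X i → ZMod (d i)) : (Σ i, X i) → ZMod M :=
  fun y => emb (hM y.1) (a y.1 y.2)

variable [Fintype I] [DecidableEq I] [∀ i, Fintype (X i)] [∀ i, DecidableEq (X i)]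

/-- packings of one of the sequences -/
theorem pack_fam (hM : ∀ i, d i ∣ M) (a : ∀ i, X i → ZMod (d i)) (i : I) {D : X i → ℕ} {q : ℕ}
    (h : Pack (a i) D q) {D' : (Σ i, X i) → ℕ} (hD : ∀ x, D' ⟨i, x⟩ = D x)
    (hD' : ∀ y : (Σ i, X i), y.1 ≠ i → D' y = 0) : Pack (fam hM a) D' q := by
  apply h.map (emb (hM i)) (fun x => (⟨i, x⟩ : Σ i, X i)) (fun x x' h => eq_of_heq (Sigma.mk.inj h).2)
    (fun x => rfl) hD
  rintro ⟨i', x⟩ hy
  apply hD'
  rintro rfl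
  exact hy x rfl

/-- **Two sequences with incompatible units.** -/
theorem pair_pack [NeZero M] (hM : ∀ i, d i ∣ M) (a : ∀ i, X i → ZMod (d i)) {κ : I → ℕ}
    {q w : ∀ i, X i → ℕ} (hqw : ∀ i x, q i x * w i x = d i) {i₁ i₂ : I} (hi : i₁ ≠ i₂)
    (hκ₁ : 1 ≤ κ i₁) (hκ₂ : 1 ≤ κ i₂) {j₁ : X i₁} {j₂ : X i₂} (h₁ : Rem (a i₁) (κ i₁) (q i₁) j₁)
    (h₂ : Rem (a i₂) (κ i₂) (q i₂) j₂) {t₁ t₂ : ℕ} (ht₁ : Nat.Coprime t₁ (q i₁ j₁))
    (ht₂ : Nat.Coprime t₂ (q i₂ j₂))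
    (ha₁ : a i₁ j₁ = ((t₁ * w i₁ j₁ : ℕ) : ZMod (d i₁)))
    (ha₂ : a i₂ j₂ = ((t₂ * w i₂ j₂ : ℕ) : ZMod (d i₂)))
    (ht : ¬ t₁ ≡ t₂ [MOD Nat.gcd (q i₁ j₁) (q i₂ j₂)]) :
    ∃ D, 0 < D ∧ Pack (fam hM a) (fun y => if y.1 = i₁ ∨ y.1 = i₂ then D else 0)
      (D * (κ i₁ + κ i₂) + 1) := by
  have hM0 : 0 < M := NeZero.pos M
  set h := Nat.gcd (q i₁ j₁) (q i₂ j₂) with hh
  have hq₁M : q i₁ j₁ ∣ M := (Dvd.intro _ (hqw i₁ j₁)).trans (hM i₁)
  have hq₂M : q i₂ j₂ ∣ M := (Dvd.intro _ (hqw i₂ j₂)).trans (hM i₂)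
  have hq₁0 : 0 < q i₁ j₁ := Nat.pos_of_dvd_of_pos hq₁M hM0
  have hq₂0 : 0 < q i₂ j₂ := Nat.pos_of_dvd_of_pos hq₂M hM0
  have hh0 : 0 < h := Nat.gcd_pos_of_pos_left _ hq₁0
  obtain ⟨c₁, hc₁⟩ : h ∣ q i₁ j₁ := Nat.gcd_dvd_left _ _
  obtain ⟨c₂, hc₂⟩ : h ∣ q i₂ j₂ := Nat.gcd_dvd_right _ _
  have hc₁0 : 0 < c₁ := by
    rcases Nat.eq_zero_or_pos c₁ with h' | h'
    · rw [h', mul_zero] at hc₁
      omega
    · exact h'
  have hw₁0 : 0 < w i₁ j₁ := by
    rcases Nat.eq_zero_or_pos (w i₁ j₁) with h' | h'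
    · have := hqw i₁ j₁
      rw [h', mul_zero] at this
      have h4 := hM i₁
      rw [← this, zero_dvd_iff] at h4
      omega
    · exact h'
  have hw₂0 : 0 < w i₂ j₂ := by
    rcases Nat.eq_zero_or_pos (w i₂ j₂) with h' | h'
    · have := hqw i₂ j₂
      rw [h', mul_zero] at this
      have h4 := hM i₂
      rw [← this, zero_dvd_iff] at h4
      omega
    · exact h'
  -- the multiplicity in the second sequence
  have : NeZero h := ⟨hh0.ne'⟩
  have hu₂ : Nat.Coprime t₂ h := Nat.Coprime.coprime_dvd_right ⟨c₂, hc₂⟩ ht₂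
  set β : ℕ := (-(t₁ : ZMod h) * ((ZMod.unitOfCoprime t₂ hu₂)⁻¹ : (ZMod h)ˣ)).val with hβ
  have hβt : h ∣ t₁ + β * t₂ := by
    rw [← ZMod.natCast_eq_zero_iff]
    push_cast
    rw [hβ, ZMod.natCast_zmod_val]
    have h4 : (((ZMod.unitOfCoprime t₂ hu₂)⁻¹ : (ZMod h)ˣ) : ZMod h) * (t₂ : ZMod h) = 1 := by
      rw [← ZMod.coe_unitOfCoprime t₂ hu₂, Units.inv_mul]
    rw [mul_assoc, h4, mul_one, add_neg_cancel]
  have hβh : β + 2 ≤ h := by
    have h4 : β < h := ZMod.val_lt _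
    by_contra hcon
    have h5 : β + 1 = h := by omega
    apply ht
    -- `β = -1`
    have h6 : (t₁ + β * t₂ : ℕ) + t₂ = t₁ + h * t₂ := by
      rw [← h5]
      ring
    have h7 : t₁ + h * t₂ ≡ t₂ [MOD h] := by
      rw [← h6]
      have := (Nat.modEq_zero_iff_dvd.2 hβt).add_right t₂
      rwa [zero_add] at this
    have h8 : t₁ + h * t₂ ≡ t₁ [MOD h] := by
      have := (Nat.modEq_zero_iff_dvd.2 (Dvd.intro t₂ (rfl : h * t₂ = h * t₂))).add_left t₁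
      rwa [add_zero] at this
    exact h8.symm.trans h7
  -- the block with elements of both sequences
  let T : (Σ i, X i) → ℕ := fun y => (if y = ⟨i₁, j₁⟩ then c₁ else 0) +
    (if y = ⟨i₂, j₂⟩ then β * c₂ else 0)
  have hne : (⟨i₁, j₁⟩ : Σ i, X i) ≠ ⟨i₂, j₂⟩ := fun h' => hi (Sigma.mk.inj h').1
  have hT : Pack (fam hM a) T 1 := by
    apply Pack.block
    · refine ⟨⟨i₁, j₁⟩, ?_⟩
      change (if (⟨i₁, j₁⟩ : Σ i, X i) = ⟨i₁, j₁⟩ then c₁ else 0) +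
        (if (⟨i₁, j₁⟩ : Σ i, X i) = ⟨i₂, j₂⟩ then β * c₂ else 0) ≠ 0
      rw [if_pos rfl, if_neg hne]
      omega
    · have h4 : ∀ y, T y • fam hM a y = (if y = ⟨i₁, j₁⟩ then c₁ • fam hM a ⟨i₁, j₁⟩ else 0) +
          (if y = ⟨i₂, j₂⟩ then (β * c₂) • fam hM a ⟨i₂, j₂⟩ else 0) := by
        intro y
        change ((if y = ⟨i₁, j₁⟩ then c₁ else 0) + (if y = ⟨i₂, j₂⟩ then β * c₂ else 0)) •
          fam hM a y = _
        rw [add_smul]
        congr 1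
        · split_ifs with h'
          · rw [h']
          · rw [zero_smul]
        · split_ifs with h'
          · rw [h']
          · rw [zero_smul]
      rw [Finset.sum_congr rfl fun y _ => h4 y, Finset.sum_add_distrib,
        Finset.sum_ite_eq' Finset.univ, Finset.sum_ite_eq' Finset.univ]
      simp only [Finset.mem_univ, if_true]
      have h5 : fam hM a ⟨i₁, j₁⟩ = ((M / q i₁ j₁ * t₁ : ℕ) : ZMod M) := by
        change emb (hM i₁) (a i₁ j₁) = _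
        rw [ha₁, emb_natCast]
        congr 1
        have h6 : M / d i₁ * w i₁ j₁ = M / q i₁ j₁ := by
          obtain ⟨e, he⟩ := hM i₁
          have h7 : 0 < d i₁ := Nat.pos_of_dvd_of_pos (hM i₁) hM0
          rw [he, Nat.mul_div_cancel_left e h7, ← hqw i₁ j₁, mul_assoc,
            Nat.mul_div_cancel_left _ hq₁0, mul_comm]
        rw [mul_left_comm, ← mul_assoc, mul_comm t₁, mul_assoc, ← h6]
        ring
      have h5' : fam hM a ⟨i₂, j₂⟩ = ((M / q i₂ j₂ * t₂ : ℕ) : ZMod M) := by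
        change emb (hM i₂) (a i₂ j₂) = _
        rw [ha₂, emb_natCast]
        congr 1
        have h6 : M / d i₂ * w i₂ j₂ = M / q i₂ j₂ := by
          obtain ⟨e, he⟩ := hM i₂
          have h7 : 0 < d i₂ := Nat.pos_of_dvd_of_pos (hM i₂) hM0
          rw [he, Nat.mul_div_cancel_left e h7, ← hqw i₂ j₂, mul_assoc,
            Nat.mul_div_cancel_left _ hq₂0, mul_comm]
        rw [mul_left_comm, ← mul_assoc, mul_comm t₂, mul_assoc, ← h6]
        ring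
      rw [h5, h5', nsmul_eq_mul, nsmul_eq_mul, ← Nat.cast_mul, ← Nat.cast_mul, ← Nat.cast_add,
        ZMod.natCast_eq_zero_iff]
      -- `c * (M / q) = M / h`
      have h6 : c₁ * (M / q i₁ j₁ * t₁) = M / h * t₁ := by
        obtain ⟨e, he⟩ := hq₁M
        rw [he, Nat.mul_div_cancel_left e hq₁0, hc₁, mul_assoc h, Nat.mul_div_cancel_left _ hh0]
        ring
      have h7 : β * c₂ * (M / q i₂ j₂ * t₂) = M / h * (β * t₂) := by
        obtain ⟨e, he⟩ := hq₂M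
        rw [he, Nat.mul_div_cancel_left e hq₂0, hc₂, mul_assoc h, Nat.mul_div_cancel_left _ hh0]
        ring
      rw [h6, h7, ← mul_add]
      obtain ⟨e, he⟩ := hβt
      have h8 : h ∣ M := (Dvd.intro _ hc₁.symm).trans hq₁M
      rw [he, ← mul_assoc, Nat.div_mul_cancel h8]
      exact Dvd.intro _ rfl
  -- the packings of the two sequences
  set D : ℕ := M * (2 * β + 3) with hD
  have hDe : ∀ e, e ≤ 2 * β + 2 → ∀ i, e * d i < D := by
    intro e he i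
    have h4 : d i ≤ M := Nat.le_of_dvd hM0 (hM i)
    calc e * d i ≤ (2 * β + 2) * M := Nat.mul_le_mul he h4
      _ < M * (2 * β + 3) := by
        have : M * (2 * β + 3) = (2 * β + 2) * M + M := by ring
        omega
  have hdD : ∀ i, d i ∣ D := fun i => (hM i).mul_right _
  obtain ⟨D₁, hD₁, hP₁⟩ := h₁ 2 D (hdD i₁) (hDe 2 (by omega) i₁)
  obtain ⟨D₂, hD₂, hP₂⟩ := h₂ (2 * β) D (hdD i₂) (hDe (2 * β) (by omega) i₂)
  have hQ₁ := pack_fam hM a i₁ (hP₁.smul D₂)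
    (D' := fun y => if y.1 = i₁ then D₂ * (D₁ * (D - if y = ⟨i₁, j₁⟩ then 2 * q i₁ j₁ else 0))
      else 0) (fun x => by
      simp only [if_true]
      congr 3
      by_cases hx : x = j₁
      · subst hx
        simp
      · rw [if_neg hx, if_neg fun h' => hx (eq_of_heq (Sigma.mk.inj h').2)])
    (fun y hy => if_neg hy)
  have hQ₂ := pack_fam hM a i₂ (hP₂.smul D₁)
    (D' := fun y => if y.1 = i₂ then D₁ * (D₂ * (D - if y = ⟨i₂, j₂⟩ then 2 * β * q i₂ j₂ else 0))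
      else 0) (fun x => by
      simp only [if_true]
      congr 3
      by_cases hx : x = j₂
      · subst hx
        simp
      · rw [if_neg hx, if_neg fun h' => hx (eq_of_heq (Sigma.mk.inj h').2)])
    (fun y hy => if_neg hy)
  have hall := (hQ₁.add hQ₂).add (hT.smul (D₁ * D₂ * (2 * h)))
  have hq₁D : 2 * q i₁ j₁ ≤ D := by
    have h4 := hDe 2 (by omega) i₁
    have h5 : q i₁ j₁ ≤ d i₁ := by
      have := Nat.mul_le_mul_left (q i₁ j₁) hw₁0
      rw [hqw i₁ j₁] at this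
      omega
    omega
  have hq₂D : 2 * β * q i₂ j₂ ≤ D := by
    have h4 := hDe (2 * β) (by omega) i₂
    have h5 : q i₂ j₂ ≤ d i₂ := by
      have := Nat.mul_le_mul_left (q i₂ j₂) hw₂0
      rw [hqw i₂ j₂] at this
      omega
    have h6 := Nat.mul_le_mul_left (2 * β) h5
    omega
  refine ⟨D₁ * D₂ * D, by positivity, ?_⟩
  have hmult : (fun y : (Σ i, X i) => if y.1 = i₁ ∨ y.1 = i₂ then D₁ * D₂ * D else 0) =
      ((fun y : (Σ i, X i) => if y.1 = i₁ then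
          D₂ * (D₁ * (D - if y = ⟨i₁, j₁⟩ then 2 * q i₁ j₁ else 0)) else 0) +
        (fun y : (Σ i, X i) => if y.1 = i₂ then
          D₁ * (D₂ * (D - if y = ⟨i₂, j₂⟩ then 2 * β * q i₂ j₂ else 0)) else 0)) +
        fun y => D₁ * D₂ * (2 * h) * T y := by
    funext y
    rw [Pi.add_apply, Pi.add_apply]
    change _ = _ + _ + D₁ * D₂ * (2 * h) * ((if y = ⟨i₁, j₁⟩ then c₁ else 0) +
      (if y = ⟨i₂, j₂⟩ then β * c₂ else 0))
    by_cases hy₁ : y.1 = i₁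
    · have hy₂ : y.1 ≠ i₂ := fun h' => hi (hy₁.symm.trans h')
      have hy₂' : y ≠ ⟨i₂, j₂⟩ := fun h' => hy₂ (by rw [h'])
      rw [if_pos (Or.inl hy₁), if_pos hy₁, if_neg hy₂, if_neg hy₂']
      by_cases hy : y = ⟨i₁, j₁⟩
      · rw [if_pos hy, if_pos hy]
        obtain ⟨z, hz⟩ := Nat.exists_eq_add_of_le hq₁D
        rw [hz, Nat.add_sub_cancel_left, hc₁]
        ring
      · rw [if_neg hy, if_neg hy]
        ring_nf
        simp
    · by_cases hy₂ : y.1 = i₂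
      · have hy₁' : y ≠ ⟨i₁, j₁⟩ := fun h' => hy₁ (by rw [h'])
        rw [if_pos (Or.inr hy₂), if_neg hy₁, if_pos hy₂, if_neg hy₁']
        by_cases hy : y = ⟨i₂, j₂⟩
        · rw [if_pos hy, if_pos hy]
          obtain ⟨z, hz⟩ := Nat.exists_eq_add_of_le hq₂D
          rw [hz, Nat.add_sub_cancel_left, hc₂]
          ring
        · rw [if_neg hy, if_neg hy]
          ring_nf
          simp
      · have hy₁' : y ≠ ⟨i₁, j₁⟩ := fun h' => hy₁ (by rw [h'])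
        have hy₂' : y ≠ ⟨i₂, j₂⟩ := fun h' => hy₂ (by rw [h'])
        rw [if_neg (not_or.2 ⟨hy₁, hy₂⟩), if_neg hy₁, if_neg hy₂, if_neg hy₁', if_neg hy₂']
        simp
  rw [hmult]
  apply hall.mono
  -- the number of blocks
  have e₁ : D ≤ D * κ i₁ := Nat.le_mul_of_pos_right D hκ₁
  have e₂ : D ≤ D * κ i₂ := Nat.le_mul_of_pos_right D hκ₂
  have e₃ : 2 * β + 3 ≤ D := Nat.le_mul_of_pos_left _ hM0
  obtain ⟨s₁, hs₁⟩ : ∃ s, D * κ i₁ = s + 3 := ⟨D * κ i₁ - 3, by omega⟩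
  obtain ⟨s₂, hs₂⟩ : ∃ s, D * κ i₂ = s + 2 * β + 1 := ⟨D * κ i₂ - (2 * β + 1), by omega⟩
  obtain ⟨y, hy⟩ := Nat.exists_eq_add_of_le hβh
  have f₁ : D * κ i₁ - 2 - 1 = s₁ := by omega
  have f₂ : D * κ i₂ - 2 * β - 1 = s₂ := by omega
  rw [f₁, f₂]
  have g₁ : D₁ * D₂ * D * (κ i₁ + κ i₂) = D₁ * D₂ * (s₁ + s₂ + 2 * β + 4) := by
    rw [mul_assoc (D₁ * D₂), mul_add, hs₁, hs₂]
    ring
  have g₂ : D₂ * (D₁ * s₁ + 1) + D₁ * (D₂ * s₂ + 1) + D₁ * D₂ * (2 * h) * 1 =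
      D₁ * D₂ * (s₁ + s₂ + 2 * β + 4) + D₁ * D₂ * (2 * y) + D₁ + D₂ := by
    rw [hy]
    ring
  rw [g₁, g₂]
  omega

end Family

end Pool.Agent.BBQ
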