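import Pool.Agent.DCI57.Act
import Pool.Agent.GBB.Defs2

/-!
# The power maps between Fermat type varieties
-/

set_option autoImplicit false

open scoped LinearAlgebra.Projectivization

noncomputable section

namespace Pool.Agent.BBQ

open Pool.Agent.ZCyc

universe u

variable {k : Type u} [Field k] {J : Type}

/-- the `e`-th powers of the coordinates -/
def pw (e : ℕ) (p : ℙ k (J → k)) : ℙ k (J → k) :=
  Projectivization.mk k (fun j => p.rep j ^ e) (by
    intro h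
    apply p.rep_nonzero
    funext j
    exact eq_zero_of_pow_eq_zero (congrFun h j))

lemma pw_rep (e : ℕ) (p : ℙ k (J → k)) :
    ∃ a : k, a ≠ 0 ∧ ∀ j, (pw e p).rep j = a * p.rep j ^ e :=
  DCI57.mk_rep_exists _

lemma pw_act {M d e : ℕ} [NeZero M] [NeZero d] (hd : d ∣ M) {ζ ζ' : kˣ} (hζ : ζ ^ e = ζ')
    (hζ' : ζ' ^ d = 1) (g : J → ZMod M) (p : ℙ k (J → k)) :
    pw e (DCI57.act ζ g p) = DCI57.act ζ' (fun j => ZMod.castHom hd (ZMod d) (g j)) (pw e p) := by
  obtain ⟨a, ha, h1⟩ := pw_rep e (DCI57.act ζ g p)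
  obtain ⟨b, hb, h2⟩ := DCI57.act_rep ζ g p
  obtain ⟨c, hc, h3⟩ := DCI57.act_rep ζ' (fun j => ZMod.castHom hd (ZMod d) (g j)) (pw e p)
  obtain ⟨a', ha', h4⟩ := pw_rep e p
  apply DCI57.eq_of_rep (a := a * b ^ e * (c * a')⁻¹)
  intro j
  have h5 : ζ' ^ (ZMod.castHom hd (ZMod d) (g j)).val = ζ' ^ (g j).val := by
    rw [ZMod.castHom_apply, ZMod.cast_eq_val, ZMod.val_natCast]
    conv_rhs => rw [← Nat.mod_add_div (g j).val d, pow_add, pow_mul, hζ', one_pow, mul_one]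
  rw [h1, h2, h3, h4, h5, ← hζ]
  push_cast
  field_simp
  ring

lemma pw_mem [Fintype J] {M d e : ℕ} (h : M = d * e) {r : ℕ} (c : Fin r → J → k)
    (p : ℙ k (J → k)) : p ∈ DCI57.Diag M c ↔ pw e p ∈ DCI57.Diag d c := by
  obtain ⟨a, ha, h1⟩ := pw_rep e p
  have h2 : ∀ i, ∑ j, c i j * (pw e p).rep j ^ d = a ^ d * ∑ j, c i j * p.rep j ^ M := by
    intro i
    rw [Finset.mul_sum]
    apply Finset.sum_congr rfl
    intro j _
    rw [h1, mul_pow, ← pow_mul, mul_comm e d, ← h]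
    ring
  constructor
  · intro hp i
    rw [h2, hp i, mul_zero]
  · intro hp i
    have h3 := hp i
    rw [h2] at h3
    rcases mul_eq_zero.1 h3 with h4 | h4
    · exact absurd (eq_zero_of_pow_eq_zero h4) ha
    · exact h4

lemma pw_surj [IsAlgClosed k] {e : ℕ} (he : 0 < e) (q : ℙ k (J → k)) :
    ∃ p : ℙ k (J → k), pw e p = q := by
  choose y hy using fun j => IsAlgClosed.exists_pow_nat_eq (q.rep j) he
  have hy0 : y ≠ 0 := by
    intro h
    apply q.rep_nonzero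
    funext j
    rw [← hy j, h]
    exact zero_pow he.ne'
  obtain ⟨a, ha, h1⟩ := DCI57.mk_rep_exists hy0
  obtain ⟨b, hb, h2⟩ := pw_rep e (Projectivization.mk k y hy0)
  refine ⟨Projectivization.mk k y hy0, DCI57.eq_of_rep (a := b * a ^ e) fun j => ?_⟩
  rw [h2, h1, mul_pow, hy]
  ring

lemma pw_value {F : Type*} [Field F] [Algebra k F] {v : Place k F} {x : J → F} {p : ℙ k (J → k)}
    (h : DCI57.IsValue v x p) (e : ℕ) : DCI57.IsValue v (fun j => x j ^ e) (pw e p) := by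
  obtain ⟨g, hg⟩ := DCI57.isValue_iff.1 h
  obtain ⟨a, ha, h1⟩ := pw_rep e p
  refine ⟨algebraMap k F a * g ^ e, fun j => ?_⟩
  have h2 := (Place.at_const (v := v) a).mul ((hg j).pow e)
  rw [h1]
  have h3 : algebraMap k F a * g ^ e * x j ^ e = algebraMap k F a * (g * x j) ^ e := by
    rw [mul_pow]
    ring
  rw [h3]
  exact h2

end Pool.Agent.BBQ
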