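import Pool.Agent.BBP.Defs2
import Pool.Agent.MPC.Main
import Pool.Agent.WBP.Blocks
import Pool.Agent.BBQ.Power
import Pool.Agent.BBQ.Pair

/-!
# Characters with a packing do not occur
-/

set_option autoImplicit false

open scoped LinearAlgebra.Projectivization

noncomputable section

namespace Pool.Agent.BBQ

open Pool.Agent.ZCyc Pool.Agent.BBM Pool.Agent.BBP
open Pool.Agent.GBB (zeta psi chi Typ zeta_prim zeta_pow psi_zero psi_add)

variable {S : Type} [Fintype S] {Φ : Fam S} {m : S → ℕ}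

/-- the enumeration of the factors -/
def enum (m : S → ℕ) : Fin (Fintype.card (Idx m)) ≃ Idx m := (Fintype.equivFin (Idx m)).symm

/-- the homogeneous coordinates on the factor with the number `i` -/
abbrev JJ (Φ : Fam S) (m : S → ℕ) (i : Fin (Fintype.card (Idx m))) : Type :=
  Fin (Φ.N (enum m i).1)

/-- the equations of the product -/
def frms (Φ : Fam S) (m : S → ℕ) (l : Σ i : Fin (Fintype.card (Idx m)), Fin (Φ.r (enum m i).1)) :
    MvPolynomial (Σ i, JJ Φ m i) ℂ :=
  ∑ j, MvPolynomial.C (Φ.c _ l.2 j) * MvPolynomial.X ⟨l.1, j⟩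

lemma frms_multi (l : Σ i : Fin (Fintype.card (Idx m)), Fin (Φ.r (enum m i).1)) :
    MPC.IsMultihomogeneous (frms Φ m l) (fun i => if i = l.1 then 1 else 0) := by
  classical
  intro n hn i
  have h1 : ∃ j, n = Finsupp.single (⟨l.1, j⟩ : Σ i, JJ Φ m i) 1 := by
    by_contra hcon
    push Not at hcon
    apply hn
    rw [frms, MvPolynomial.coeff_sum]
    apply Finset.sum_eq_zero
    intro j _
    rw [MvPolynomial.coeff_C_mul, MvPolynomial.coeff_X, if_neg (Ne.symm (hcon j)), mul_zero]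
  obtain ⟨j, rfl⟩ := h1
  change ∑ j', (Finsupp.single (⟨l.1, j⟩ : Σ i, JJ Φ m i) 1) ⟨i, j'⟩ = if i = l.1 then 1 else 0
  by_cases hi : i = l.1
  · subst hi
    rw [if_pos rfl, Finset.sum_eq_single j]
    · simp
    · intro j' _ hj'
      rw [Finsupp.single_eq_of_ne]
      intro h
      exact hj' (eq_of_heq (Sigma.mk.inj h).2)
    · simp
  · rw [if_neg hi]
    apply Finset.sum_eq_zero
    intro j' _
    rw [Finsupp.single_eq_of_ne]
    intro h
    exact hi (Sigma.mk.inj h).1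

lemma frms_degree (i : Fin (Fintype.card (Idx m))) :
    (∑ l : (Σ i : Fin (Fintype.card (Idx m)), Fin (Φ.r (enum m i).1)),
      if i = l.1 then 1 else 0) = Φ.r (enum m i).1 := by
  rw [Fintype.sum_sigma, Finset.sum_eq_single i]
  · simp
  · intro i' _ hi'
    apply Finset.sum_eq_zero
    intro l _
    rw [if_neg (Ne.symm hi')]
  · simp

lemma mem_frms {M : ℕ} (p : ∀ i : Fin (Fintype.card (Idx m)), ℙ ℂ (JJ Φ m i → ℂ)) :
    p ∈ MPC.Zeros M (frms Φ m) ↔ ∀ i, p i ∈ DCI57.Diag M (Φ.c (enum m i).1) := by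
  have h1 : ∀ l : (Σ i : Fin (Fintype.card (Idx m)), Fin (Φ.r (enum m i).1)),
      MvPolynomial.eval (fun a : (Σ i, JJ Φ m i) => (p a.1).rep a.2 ^ M) (frms Φ m l) =
        ∑ j, Φ.c _ l.2 j * (p l.1).rep j ^ M := by
    intro l
    rw [frms, map_sum]
    apply Finset.sum_congr rfl
    intro j _
    rw [map_mul, MvPolynomial.eval_C, MvPolynomial.eval_X]
  constructor
  · intro h i l
    rw [← h1 ⟨i, l⟩]
    exact h ⟨i, l⟩
  · intro h l
    have h2 := h l.1 l.2
    change MvPolynomial.eval (fun a : (Σ i, JJ Φ m i) => (p a.1).rep a.2 ^ M) (frms Φ m l) = 0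
    rw [h1]
    exact h2

section Maps

variable {M : ℕ} (u₀ : Pts Φ.P m)

/-- the points of the product of the projective spaces -/
def toIdx (p : ∀ i : Fin (Fintype.card (Idx m)), ℙ ℂ (JJ Φ m i → ℂ)) (i : Idx m) :
    ℙ ℂ (Fin (Φ.N i.1) → ℂ) :=
  Equiv.piCongrLeft (fun i : Idx m => ℙ ℂ (Fin (Φ.N i.1) → ℂ)) (enum m) p i

lemma toIdx_apply (p : ∀ i : Fin (Fintype.card (Idx m)), ℙ ℂ (JJ Φ m i → ℂ))
    (i : Fin (Fintype.card (Idx m))) : toIdx p (enum m i) = p i :=
  Equiv.piCongrLeft_apply_apply (fun i : Idx m => ℙ ℂ (Fin (Φ.N i.1) → ℂ)) (enum m) p i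

/-- a point of `X s` -/
def mkP {s : S} (p : ℙ ℂ (Fin (Φ.N s) → ℂ)) (h : p ∈ DCI57.Diag (Φ.d s) (Φ.c s)) : Φ.P s := ⟨p, h⟩

/-- the power map (extended to all points of the product of the projective spaces) -/
def down (M : ℕ) (u₀ : Pts Φ.P m) (p : ∀ i : Fin (Fintype.card (Idx m)), ℙ ℂ (JJ Φ m i → ℂ)) :
    Pts Φ.P m := by
  classical
  exact fun i => if h : pw (M / Φ.d i.1) (toIdx p i) ∈ DCI57.Diag (Φ.d i.1) (Φ.c i.1) then
    mkP _ h else u₀ i

lemma down_apply (hM : ∀ i : Idx m, Φ.d i.1 ∣ M)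
    {p : ∀ i : Fin (Fintype.card (Idx m)), ℙ ℂ (JJ Φ m i → ℂ)}
    (hp : p ∈ MPC.Zeros M (frms Φ m)) (i : Idx m) :
    (down M u₀ p i).1 = pw (M / Φ.d i.1) (toIdx p i) := by
  obtain ⟨a, rfl⟩ := (enum m).surjective i
  have h1 := (mem_frms p).1 hp a
  rw [pw_mem (Nat.mul_div_cancel' (hM (enum m a))).symm] at h1
  rw [down, toIdx_apply, dif_pos h1]
  rfl

/-- direct images of rational equivalences -/
lemma rat_down (hM : ∀ i : Idx m, Φ.d i.1 ∣ M) : MPC.ratEquiv ℂ (MPC.Zeros M (frms Φ m)) ≤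
    (Φ.ratEq ℂ m).comap (Finsupp.lmapDomain ℂ ℂ (down M u₀)) := by
  conv_lhs => rw [MPC.ratEquiv]
  rw [Submodule.span_le]
  rintro _ ⟨F, _, _, _, _, _, _, x, φ, h1, h2, a, b, v, w, hv, hw, rfl⟩
  rw [SetLike.mem_coe, Submodule.mem_comap]
  let X := Equiv.piCongrLeft (fun i : Idx m => Fin (Φ.N i.1) → F) (enum m) x
  have hX : ∀ a, X (enum m a) = x a := fun a =>
    Equiv.piCongrLeft_apply_apply (fun i : Idx m => Fin (Φ.N i.1) → F) (enum m) x a
  apply Submodule.mem_sup_left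
  apply Submodule.subset_span
  refine ⟨F, _, _, _, inferInstance, inferInstance, inferInstance,
    fun i j => X i j ^ (M / Φ.d i.1), fun v => down M u₀ (φ v), fun v i => ?_, a, b, v, w, hv, hw,
    ?_⟩
  · rw [down_apply u₀ hM (h2 v)]
    obtain ⟨c, rfl⟩ := (enum m).surjective i
    change DCI57.IsValue v (fun j => X (enum m c) j ^ (M / Φ.d (enum m c).1)) _
    rw [hX, toIdx_apply]
    exact pw_value (h1 v c) _
  · rw [map_sum]
    apply Finset.sum_congr rfl
    intro τ _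
    rw [map_sub, Finsupp.lmapDomain_apply, Finsupp.lmapDomain_apply, Finsupp.mapDomain_single,
      Finsupp.mapDomain_single]

end Maps

section Fiber

variable {M : ℕ} (hM : ∀ i : Idx m, Φ.d i.1 ∣ M)

/-- the coordinates -/
abbrev coo (Φ : Fam S) (m : S → ℕ) : (Σ i, JJ Φ m i) ≃ (Σ i : Idx m, Fin (Φ.N i.1)) :=
  Equiv.sigmaCongrLeft (β := fun i : Idx m => Fin (Φ.N i.1)) (enum m)

/-- reduction of the exponents -/
def red : ((Σ i, JJ Φ m i) → ZMod M) →+ (∀ i : Idx m, Fin (Φ.N i.1) → ZMod (Φ.d i.1)) where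
  toFun g i j := ZMod.castHom (hM i) (ZMod (Φ.d i.1)) (g ((coo Φ m).symm ⟨i, j⟩))
  map_zero' := by
    funext i j
    exact map_zero _
  map_add' g h := by
    funext i j
    exact map_add _ _ _

lemma red_apply (g : (Σ i, JJ Φ m i) → ZMod M) (i : Fin (Fintype.card (Idx m))) (j : JJ Φ m i) :
    red hM g (enum m i) j = ZMod.castHom (hM (enum m i)) (ZMod (Φ.d (enum m i).1)) (g ⟨i, j⟩) := by
  change ZMod.castHom (hM (enum m i)) (ZMod (Φ.d (enum m i).1))
    (g ((coo Φ m).symm (coo Φ m ⟨i, j⟩))) = _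
  rw [Equiv.symm_apply_apply]

lemma red_surjective : Function.Surjective (red hM) := by
  intro h
  choose G hG using fun x : (Σ i : Idx m, Fin (Φ.N i.1)) =>
    ZMod.ringHom_surjective (ZMod.castHom (hM x.1) (ZMod (Φ.d x.1.1))) (h x.1 x.2)
  refine ⟨fun y => G (coo Φ m y), ?_⟩
  funext i j
  change ZMod.castHom (hM i) (ZMod (Φ.d i.1)) (G (coo Φ m ((coo Φ m).symm ⟨i, j⟩))) = _
  rw [Equiv.apply_symm_apply]
  exact hG ⟨i, j⟩

variable [DecidableEq S] [NeZero M] [∀ s, NeZero (Φ.d s)]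

/-- summation over the fibres -/
lemma sum_red {V : Type} [AddCommMonoid V]
    (f : (∀ i : Idx m, Fin (Φ.N i.1) → ZMod (Φ.d i.1)) → V) :
    ∃ K : ℕ, 0 < K ∧ ∑ g, f (red hM g) = K • ∑ h, f h := by
  classical
  refine ⟨(Finset.univ.filter fun g => red hM g = 0).card, Finset.card_pos.2
    ⟨0, by simp⟩, ?_⟩
  rw [← Finset.sum_fiberwise Finset.univ (red hM), Finset.smul_sum]
  apply Finset.sum_congr rfl
  intro h _
  rw [Finset.sum_congr rfl (g := fun _ => f h) (fun g hg => by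
    rw [(Finset.mem_filter.1 hg).2]), Finset.sum_const]
  congr 1
  exact AddMonoidHom.card_fiber_eq_of_mem_range (red hM) (red_surjective hM h)
    (red_surjective hM 0)

end Fiber

/-! ### Roots of unity -/

lemma zeta_pow_div {d M : ℕ} [NeZero M] (h : d ∣ M) : zeta M ^ (M / d) = zeta d := by
  obtain ⟨e, rfl⟩ := h
  have hde : d * e ≠ 0 := NeZero.ne _
  have hd : d ≠ 0 := fun h => hde (by rw [h, zero_mul])
  have he : e ≠ 0 := fun h => hde (by rw [h, mul_zero])
  rw [Nat.mul_div_cancel_left e (Nat.pos_of_ne_zero hd)]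
  apply Units.ext
  rw [Units.val_pow_eq_pow_val]
  change Complex.exp (2 * Real.pi * Complex.I / ((d * e : ℕ) : ℂ)) ^ e =
    Complex.exp (2 * Real.pi * Complex.I / (d : ℂ))
  rw [← Complex.exp_nat_mul]
  congr 1
  have hd' : (d : ℂ) ≠ 0 := Nat.cast_ne_zero.2 hd
  have he' : (e : ℂ) ≠ 0 := Nat.cast_ne_zero.2 he
  push_cast
  field_simp

lemma psi_natCast {M : ℕ} [NeZero M] (n : ℕ) :
    psi (n : ZMod M) = ((zeta M : ℂˣ) : ℂ) ^ n := by
  rw [psi, ZMod.val_natCast]
  exact (pow_eq_pow_mod _ (zeta_prim M).pow_eq_one).symm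

lemma psi_emb {d M : ℕ} [NeZero d] [NeZero M] (h : d ∣ M) (x : ZMod d) :
    psi (emb h x) = psi x := by
  have h1 : x = (x.val : ZMod d) := by simp
  rw [h1, emb_natCast, psi_natCast, psi_natCast, pow_mul, ← Units.val_pow_eq_pow_val,
    zeta_pow_div h]

lemma emb_mul {d M : ℕ} [NeZero d] [NeZero M] (h : d ∣ M) (x : ZMod d) (t : ZMod M) :
    emb h x * t = emb h (x * ZMod.castHom h (ZMod d) t) := by
  have h1 : x = (x.val : ZMod d) := by simp
  have h2 : t = (t.val : ZMod M) := by simp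
  rw [h2, map_natCast, h1, ← Nat.cast_mul, emb_natCast, emb_natCast, ← Nat.cast_mul, mul_assoc]

lemma psi_sum {M : ℕ} [NeZero M] {ι : Type} (s : Finset ι) (f : ι → ZMod M) :
    psi (∑ i ∈ s, f i) = ∏ i ∈ s, psi (f i) := by
  classical
  induction s using Finset.induction_on with
  | empty => simp [psi_zero]
  | insert i s hi ih => rw [Finset.sum_insert hi, Finset.prod_insert hi, psi_add, ih]

section Main

variable {M : ℕ} (hM : ∀ i : Idx m, Φ.d i.1 ∣ M) [DecidableEq S] [NeZero M] [∀ s, NeZero (Φ.d s)]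

omit [DecidableEq S] in
/-- the power map and the action -/
lemma down_act (u : Pts Φ.P m) {p : ∀ i : Fin (Fintype.card (Idx m)), ℙ ℂ (JJ Φ m i → ℂ)}
    (hp : p ∈ MPC.Zeros M (frms Φ m)) (g : (Σ i, JJ Φ m i) → ZMod M) :
    down M u (MPC.act (zeta M) g p) = actP (red hM g) (down M u p) := by
  have hp' : MPC.act (zeta M) g p ∈ MPC.Zeros M (frms Φ m) :=
    MPC.act_mem (fun l => frms_multi l) (zeta_pow M) hp g
  funext i
  apply Subtype.ext
  rw [down_apply u hM hp']
  have h1 : (actP (red hM g) (down M u p) i).1 =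
      DCI57.act (zeta (Φ.d i.1)) (red hM g i) (down M u p i).1 := rfl
  rw [h1, down_apply u hM hp]
  obtain ⟨c, rfl⟩ := (enum m).surjective i
  rw [toIdx_apply, toIdx_apply]
  have h2 : MPC.act (zeta M) g p c = DCI57.act (zeta M) (fun j => g ⟨c, j⟩) (p c) := rfl
  rw [h2, pw_act (hM (enum m c)) (zeta_pow_div (hM (enum m c))) (zeta_pow _)]
  congr 1
  funext j
  exact (red_apply hM g c j).symm

/-- **A character with a packing does not occur.** -/
theorem E_zero_of_pack (a : ∀ i : Idx m, Fin (Φ.N i.1) → ZMod (Φ.d i.1))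
    (hsum : ∀ i, ∑ j, a i j = 0) {D : Idx m → ℕ} (hD : ∀ i, D i ≠ 0 → a i ≠ 0) {q : ℕ}
    (h : Pack (fam hM a) (fun y => if a y.1 y.2 = 0 then 0 else D y.1) q)
    (hq : ∑ i, D i * (Φ.r i.1 + (Finset.univ.filter fun j => a i j ≠ 0).card) <
      ∑ i, D i * Φ.N i.1 + q) (u : Pts Φ.P m) : E a u = 0 := by
  classical
  obtain ⟨e, n, h1, h2, h3, h4⟩ := h
  replace h4 : ∀ y, ∑ B, n B y = if a y.1 y.2 = 0 then 0 else D y.1 := h4
  set a' : (Σ i, JJ Φ m i) → ZMod M := fun x => fam hM a (coo Φ m x) with ha'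
  have ha0 : ∀ x : (Σ i, JJ Φ m i), a' x = 0 ↔ a (coo Φ m x).1 (coo Φ m x).2 = 0 := by
    intro x
    constructor
    · intro hx
      exact emb_eq_zero _ hx
    · intro hx
      rw [ha']
      change emb _ (a (coo Φ m x).1 (coo Φ m x).2) = 0
      rw [hx, map_zero]
  have hpat := WBP.pattern_of_mult (a := a') (δ := fun i => Φ.r (enum m i).1)
    (fun (B : Fin e) x => n B (coo Φ m x)) (d := fun i => D (enum m i)) (by
      intro x
      rw [h4]
      by_cases hx : a' x = 0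
      · rw [if_pos hx, if_pos ((ha0 x).1 hx)]
      · rw [if_neg hx, if_neg fun h => hx ((ha0 x).2 h)]
        rfl) (by
      intro i hi
      obtain ⟨j, hj⟩ := Function.ne_iff.1 (hD _ hi)
      exact ⟨j, fun h => hj ((ha0 ⟨i, j⟩).1 h)⟩) (by
      intro B
      obtain ⟨y, hy⟩ := h2 B
      obtain ⟨x, rfl⟩ := (coo Φ m).surjective y
      exact ⟨x, hy⟩) (by
      intro B
      rw [← h3 B, ← Equiv.sum_comp (coo Φ m)]
      apply Finset.sum_congr rfl
      intro x _
      rw [nsmul_eq_mul]) (by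
      rw [Fintype.card_fin]
      refine lt_of_lt_of_le ?_ (Nat.add_le_add_left h1 _)
      have e1 : ∑ i, D (enum m i) * Fintype.card (JJ Φ m i) = ∑ i, D i * Φ.N i.1 := by
        rw [← Equiv.sum_comp (enum m)]
        apply Finset.sum_congr rfl
        intro i _
        rw [Fintype.card_fin]
      have e2 : ∑ i, D (enum m i) * (Φ.r (enum m i).1 +
          (Finset.univ.filter fun j => a' ⟨i, j⟩ ≠ 0).card) =
          ∑ i, D i * (Φ.r i.1 + (Finset.univ.filter fun j => a i j ≠ 0).card) := by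
        rw [← Equiv.sum_comp (enum m)]
        apply Finset.sum_congr rfl
        intro i _
        congr 3
        apply Finset.filter_congr
        intro j _
        exact not_congr (ha0 ⟨i, j⟩)
      rw [e1, e2]
      exact hq)
  choose p hp using fun i : Fin (Fintype.card (Idx m)) =>
    pw_surj (e := M / Φ.d (enum m i).1) (Nat.div_pos (Nat.le_of_dvd (NeZero.pos M)
      (hM (enum m i))) (NeZero.pos _)) (u (enum m i)).1
  have hpZ : p ∈ MPC.Zeros M (frms Φ m) := by
    rw [mem_frms]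
    intro i
    rw [pw_mem (Nat.mul_div_cancel' (hM (enum m i))).symm, hp]
    exact (u (enum m i)).2
  have hpu : down M u p = u := by
    funext i
    apply Subtype.ext
    rw [down_apply u hM hpZ]
    obtain ⟨c, rfl⟩ := (enum m).surjective i
    rw [toIdx_apply, hp]
  let ψ : AddChar ((Σ i, JJ Φ m i) → ZMod M) ℂ :=
    { toFun := fun t => psi (∑ x, a' x * t x)
      map_zero_eq_one' := by simp [psi_zero]
      map_add_eq_mul' := by
        intro x y
        rw [← psi_add, ← Finset.sum_add_distrib]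
        simp only [Pi.add_apply, mul_add] }
  have h5 := MPC.vanish (R := ℂ) (zeta_prim M) (fun l => frms_multi (Φ := Φ) (m := m) l)
    (ω := ((zeta M : ℂˣ) : ℂ)) (zeta_prim M) (a := a') (ψ := ψ) (fun t => rfl) (by
      intro i
      change ∑ j, emb (hM (enum m i)) (a (enum m i) j) = 0
      rw [← map_sum, hsum, map_zero]) hpZ _ _ _ _ _ _ (by
      have e3 : (fun i : Fin (Fintype.card (Idx m)) =>
          ∑ l : (Σ i : Fin (Fintype.card (Idx m)), Fin (Φ.r (enum m i).1)),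
            if i = l.1 then 1 else 0) = fun i => Φ.r (enum m i).1 := funext frms_degree
      rw [e3]
      exact hpat) rfl
  have h6 := rat_down u hM h5
  rw [Submodule.mem_comap, MPC.op_single, map_sum] at h6
  -- the classes
  let f : (∀ i : Idx m, Fin (Φ.N i.1) → ZMod (Φ.d i.1)) → Φ.V m := fun g =>
    (∏ i, psi (∑ j, a i j * g i j)) • cl (actP g u)
  have h7 : ∀ g : (Σ i, JJ Φ m i) → ZMod M, ψ g = ∏ i, psi (∑ j, a i j * red hM g i j) := by
    intro g
    change psi (∑ x, a' x * g x) = _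
    rw [Fintype.sum_sigma, psi_sum, ← Equiv.prod_comp (enum m)]
    apply Finset.prod_congr rfl
    intro i _
    rw [← psi_emb (hM (enum m i)), map_sum]
    congr 1
    apply Finset.sum_congr rfl
    intro j _
    rw [red_apply, ← emb_mul]
    rfl
  have h8 : ∑ g : (Σ i, JJ Φ m i) → ZMod M, f (red hM g) = 0 := by
    rw [← (Submodule.Quotient.mk_eq_zero (Φ.ratEq ℂ m)).2 h6, ← Submodule.mkQ_apply, map_sum]
    apply Finset.sum_congr rfl
    intro g _
    rw [Finsupp.lmapDomain_apply, Finsupp.mapDomain_single, down_act hM u hpZ, hpu, h7]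
    change _ • cl _ = _
    rw [cl, Submodule.mkQ_apply, ← Submodule.Quotient.mk_smul, Finsupp.smul_single, smul_eq_mul,
      mul_one]
  obtain ⟨K, hK, h9⟩ := sum_red hM f
  rw [h8] at h9
  have h10 : (K : ℂ) • ∑ h, f h = 0 := by
    rw [Nat.cast_smul_eq_nsmul]
    exact h9.symm
  rcases smul_eq_zero.1 h10 with h11 | h11
  · exact absurd (Nat.cast_eq_zero.1 h11) hK.ne'
  · exact h11

end Main

end Pool.Agent.BBQ
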