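import Pool.Agent.BBQ.Local
import Pool.Agent.WBP.Crt

/-!
# A common unit
-/

set_option autoImplicit false

namespace Pool.Agent.BBQ

open Pool.Agent.MPC Pool.Agent.WBP

variable {I : Type} [Fintype I] {X : I → Type} [∀ i, Fintype (X i)] {d : I → ℕ} {M : ℕ}
  [DecidableEq I] [∀ i, DecidableEq (X i)] [∀ i, NeZero (d i)] [NeZero M]

/-- there is a common unit -/
def Common (M : ℕ) (a : ∀ i, X i → ZMod (d i)) (κ : I → ℕ) (w : ∀ i, X i → ℕ) : Prop :=
  ∃ T : ℕ, Nat.Coprime T M ∧ ∀ i, ∃ b : X i → ℕ, (∀ x, 0 < b x) ∧ (∀ x, w i x ∣ b x) ∧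
    ∑ x, b x = κ i * d i ∧ (∀ x, a i x = ((T * b x : ℕ) : ZMod (d i))) ∧ ∀ x, a i x ≠ 0

/-- all degrees are equal -/
theorem equal_step (hM : ∀ i, d i ∣ M) (a : ∀ i, X i → ZMod (d i)) (κ : I → ℕ)
    {q w : ∀ i, X i → ℕ} (hqw : ∀ i x, q i x * w i x = d i) (hw : ∀ i x, w i x < d i)
    (hqa : ∀ i x, (q i x : ZMod (d i)) * a i x = 0) (ha0 : ∀ i, a i ≠ 0)
    (hsum : ∀ i, ∑ x, a i x = 0) (h1 : ∀ i x, κ i * d i + w i x < ∑ x, w i x + d i)
    (h2 : ∀ i, κ i * d i ≤ ∑ x, w i x ∨ κ i * d i < ∑ x, max 2 (w i x))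
    (hd : ∀ i i', d i = d i') (hi : ∃ i, ∑ x, w i x < κ i * d i) :
    Many hM a κ ∨ Common M a κ w := by
  classical
  obtain ⟨i₀, hi₀⟩ := hi
  have hne : NeZero (d i₀) := inferInstance
  obtain ⟨m, hm⟩ : ∃ m, m = d i₀ := ⟨_, rfl⟩
  obtain rfl : d = fun _ => m := funext fun i => (hd i i₀).trans hm.symm
  have : NeZero m := hne
  have hmM : m ∣ M := hM i₀
  let e : Fin (Fintype.card I) ≃ I := (Fintype.equivFin I).symm
  have hmax : ∀ i, ∑ x, w i x ≤ ∑ x, max 2 (w i x) := fun i =>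
    Finset.sum_le_sum fun x _ => le_max_right _ _
  have hstrict : ∀ i, i = i₀ → κ i * m < ∑ x, max 2 (w i x) := by
    rintro i rfl
    rcases h2 i with h | h
    · exact absurd hi₀ (Nat.not_lt.2 h)
    · exact h
  rcases exists_pattern_or_unit (J := fun c => X (e c)) (m := m) (q := fun x => q (e x.1) x.2)
    (w := fun x => w (e x.1) x.2) (fun x => hqw (e x.1) x.2) (fun x => hw (e x.1) x.2)
    (a := fun x => a (e x.1) x.2) (fun x => hqa (e x.1) x.2)
    (fun c => Function.ne_iff.1 (ha0 (e c))) (fun c => hsum (e c)) (δ := fun c => κ (e c))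
    (fun c => by
      rcases h2 (e c) with h | h
      · exact h.trans (hmax _)
      · exact h.le) ⟨e.symm i₀, hstrict _ (Equiv.apply_symm_apply e i₀)⟩
    (fun c j => h1 (e c) j) with h | ⟨u, hu⟩
  · left
    exact many_of_pattern hM a κ hmM e.injective (a' := fun y => a (e y.1) y.2) (fun y => rfl) h
  · right
    obtain ⟨T, hT, hT'⟩ := exists_coprime_lift (NeZero.pos M) hmM
      (ZMod.val_coe_unit_coprime (u⁻¹ : (ZMod m)ˣ))
    rw [← ZMod.natCast_eq_natCast_iff, ZMod.natCast_zmod_val] at hT'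
    refine ⟨T, hT, fun i => ?_⟩
    obtain ⟨c, rfl⟩ := e.surjective i
    obtain ⟨h3, h4⟩ := hu c
    refine ⟨fun x => ((u : ZMod m) * a (e c) x).val, fun x => ?_,
      fun x => dvd_val (hqw (e c)) (hqa (e c)) u x, h4, fun x => ?_, h3⟩
    · exact Nat.pos_of_ne_zero fun h =>
        h3 x ((Units.mul_right_eq_zero u).1 ((ZMod.val_eq_zero _).1 h))
    · rw [Nat.cast_mul, ZMod.natCast_zmod_val, hT', ← mul_assoc, Units.inv_mul, one_mul]

/-- the units which belong to the sequences are compatible -/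
theorem global_step (hM : ∀ i, d i ∣ M) (a : ∀ i, X i → ZMod (d i)) (κ : I → ℕ)
    {q w : ∀ i, X i → ℕ} (hqw : ∀ i x, q i x * w i x = d i) (hκ : ∀ i, 1 ≤ κ i)
    (h : ∀ i, ∃ (t : ℕ) (b : X i → ℕ) (A : Finset (X i)), Loc (a i) (κ i) (q i) (w i) t b A)
    (hX : ∀ i, a i ≠ 0) : Many hM a κ ∨ Common M a κ w := by
  classical
  choose t b A hL using h
  have hqM : ∀ i x, q i x ∣ M := fun i x => (Dvd.intro _ (hqw i x)).trans (hM i)
  have hcop : ∀ i x, Nat.Coprime (t i) (q i x) := fun i x =>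
    Nat.Coprime.coprime_dvd_right (Dvd.intro _ (hqw i x)) (hL i).cop
  by_cases H : ∃ (i₁ i₂ : I) (j₁ : X i₁) (j₂ : X i₂), i₁ ≠ i₂ ∧ j₁ ∈ A i₁ ∧ j₂ ∈ A i₂ ∧
      ¬ t i₁ ≡ t i₂ [MOD Nat.gcd (q i₁ j₁) (q i₂ j₂)]
  · left
    obtain ⟨i₁, i₂, j₁, j₂, hi, hj₁, hj₂, ht⟩ := H
    obtain ⟨D, hD, hP⟩ := pair_pack hM a hqw hi (hκ i₁) (hκ i₂) ((hL i₁).rem j₁ hj₁).1
      ((hL i₂).rem j₂ hj₂).1 (hcop i₁ j₁) (hcop i₂ j₂) ((hL i₁).rem j₁ hj₁).2
      ((hL i₂).rem j₂ hj₂).2 ht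
    refine ⟨fun i => if i = i₁ ∨ i = i₂ then D else 0, D * (κ i₁ + κ i₂) + 1,
      fun i _ => hX i, ?_, ?_⟩
    · have h1 : (fun y : (Σ i, X i) => if a y.1 y.2 = 0 then 0 else
          if y.1 = i₁ ∨ y.1 = i₂ then D else 0) =
          fun y => if y.1 = i₁ ∨ y.1 = i₂ then D else 0 := by
        funext y
        rw [if_neg ((hL y.1).ne y.2)]
      rw [h1]
      exact hP
    · have h1 : ∀ f : I → ℕ, ∑ i, (if i = i₁ ∨ i = i₂ then D else 0) * f i =
          D * f i₁ + D * f i₂ := by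
        intro f
        have h2 : ∀ i, (if i = i₁ ∨ i = i₂ then D else 0) * f i =
            (if i = i₁ then D * f i₁ else 0) + if i = i₂ then D * f i₂ else 0 := by
          intro i
          by_cases e1 : i = i₁
          · have e2 : ¬ i = i₂ := fun e2 => hi (e1.symm.trans e2)
            rw [if_pos (Or.inl e1), if_pos e1, if_neg e2, e1, add_zero]
          · by_cases e2 : i = i₂
            · rw [if_pos (Or.inr e2), if_neg e1, if_pos e2, e2, zero_add]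
            · rw [if_neg (not_or.2 ⟨e1, e2⟩), if_neg e1, if_neg e2, zero_mul, add_zero]
        rw [Finset.sum_congr rfl fun i _ => h2 i, Finset.sum_add_distrib,
          Finset.sum_ite_eq' Finset.univ, Finset.sum_ite_eq' Finset.univ]
        simp only [Finset.mem_univ, if_true]
      have h2 : ∀ i, (Finset.univ.filter fun x => a i x ≠ 0).card = Fintype.card (X i) := by
        intro i
        rw [Finset.filter_true_of_mem fun x _ => (hL i).ne x, Finset.card_univ]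
      rw [h1, h1, h2, h2]
      have h3 : D * (κ i₁ + Fintype.card (X i₁)) + D * (κ i₂ + Fintype.card (X i₂)) =
          D * Fintype.card (X i₁) + D * Fintype.card (X i₂) + D * (κ i₁ + κ i₂) := by ring
      omega
  · right
    push Not at H
    set Y : Finset (Σ i, X i) := Finset.univ.filter fun y => y.2 ∈ A y.1 with hY
    obtain ⟨t₀, ht₀⟩ := exists_crt Y (fun y => q y.1 y.2) (fun y => t y.1) (by
      rintro ⟨i, x⟩ hx ⟨i', x'⟩ hx'
      by_cases hii : i = i'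
      · subst hii
        exact Nat.ModEq.refl _
      · exact H i i' x x' hii (Finset.mem_filter.1 hx).2 (Finset.mem_filter.1 hx').2)
    have hLM : Y.lcm (fun y => q y.1 y.2) ∣ M := Finset.lcm_dvd fun y _ => hqM y.1 y.2
    have hc0 : ∀ y ∈ Y, Nat.Coprime t₀ (q y.1 y.2) := by
      intro y hy
      have h1 : Nat.gcd t₀ (q y.1 y.2) = Nat.gcd (t y.1) (q y.1 y.2) := (ht₀ y hy).gcd_eq
      rw [Nat.Coprime, h1]
      exact hcop y.1 y.2
    have hc : Nat.Coprime t₀ (Y.lcm fun y => q y.1 y.2) :=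
      Nat.Coprime.coprime_dvd_right (Finset.lcm_dvd fun y hy =>
        Finset.dvd_prod_of_mem (fun y => q y.1 y.2) hy) (Nat.Coprime.prod_right hc0)
    obtain ⟨T, hT, hT'⟩ := exists_coprime_lift (NeZero.pos M) hLM hc
    refine ⟨T, hT, fun i => ⟨b i, (hL i).pos, (hL i).dvd, (hL i).sum,
      (hL i).lift T fun x hx => ?_, (hL i).ne⟩⟩
    have hy : (⟨i, x⟩ : Σ i, X i) ∈ Y := Finset.mem_filter.2 ⟨Finset.mem_univ _, hx⟩
    exact (hT'.of_dvd (Finset.dvd_lcm hy)).trans (ht₀ _ hy)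

/-- **Many blocks or a common unit.** -/
theorem many_or_common (hM : ∀ i, d i ∣ M) (a : ∀ i, X i → ZMod (d i)) (κ : I → ℕ)
    {q w : ∀ i, X i → ℕ} (hqw : ∀ i x, q i x * w i x = d i) (hw : ∀ i x, w i x < d i)
    (hqa : ∀ i x, (q i x : ZMod (d i)) * a i x = 0) (ha0 : ∀ i, a i ≠ 0)
    (hsum : ∀ i, ∑ x, a i x = 0) (hκ : ∀ i, 1 ≤ κ i)
    (h1 : ∀ i x, κ i * d i + w i x < ∑ x, w i x + d i)
    (h2 : ∀ i, κ i * d i ≤ ∑ x, w i x ∨ κ i * d i < ∑ x, max 2 (w i x))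
    (h3 : (∀ i i', d i = d i') ∨ ∀ i, κ i * d i ≤ ∑ x, w i x ∨ Even (d i) ∨
      κ i * (d i + 1) < ∑ x, max 2 (w i x)) : Many hM a κ ∨ Common M a κ w := by
  classical
  by_cases hall : ∀ i, κ i * d i ≤ ∑ x, w i x ∨ Even (d i) ∨
      κ i * (d i + 1) < ∑ x, max 2 (w i x)
  · by_cases H : Many hM a κ
    · exact Or.inl H
    · exact global_step hM a κ hqw hκ (fun i => (local_step hM a κ i (hqw i) (hw i) (hqa i) (ha0 i)
        (hsum i) (hκ i) (h1 i) (h2 i) (hall i)).resolve_left H) ha0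
  · have hd := h3.resolve_right hall
    push Not at hall
    obtain ⟨i, hi, -⟩ := hall
    exact equal_step hM a κ hqw hw hqa ha0 hsum h1 h2 hd ⟨i, hi⟩

end Pool.Agent.BBQ
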