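import Pool.Agent.WBP.PatternW

/-!
# Patterns from fractional packings, the boundary case

This is `Pool.Agent.WBP.exists_pattern_or_unit`, with a weaker hypothesis.
-/

set_option autoImplicit false

namespace Pool.Agent.BBQ

open Pool.Agent.MPC Pool.Agent.SavChen Pool.Agent.WBP

variable {r : ℕ} {J : Fin r → Type} [∀ i, Fintype (J i)] [∀ i, DecidableEq (J i)] {m : ℕ}
  [NeZero m]

/-- **Patterns from fractional packings.** -/
theorem exists_pattern_or_unit {q w : (Σ i, J i) → ℕ} (hqw : ∀ x, q x * w x = m)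
    (hw : ∀ x, w x < m) {a : (Σ i, J i) → ZMod m} (ha : ∀ x, (q x : ZMod m) * a x = 0)
    (ha0 : ∀ i, ∃ j, a ⟨i, j⟩ ≠ 0) (hsum : ∀ i, ∑ j, a ⟨i, j⟩ = 0) {δ : Fin r → ℕ}
    (hδ : ∀ i, δ i * m ≤ ∑ j, max 2 (w ⟨i, j⟩)) (hδs : ∃ i, δ i * m < ∑ j, max 2 (w ⟨i, j⟩))
    (hδ' : ∀ i j, δ i * m + w ⟨i, j⟩ < ∑ j, w ⟨i, j⟩ + m) :
    (∃ (Ω 𝔅 : Type) (_ : Fintype Ω) (_ : Fintype 𝔅) (_ : DecidableEq Ω) (_ : DecidableEq 𝔅)
      (s : Ω → Σ i, J i) (b : Ω → 𝔅) (d : Fin r → ℕ), Pattern a δ s b d) ∨
    ∃ u : (ZMod m)ˣ, ∀ i, (∀ j, a ⟨i, j⟩ ≠ 0) ∧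
      ∑ j, ((u : ZMod m) * a ⟨i, j⟩).val = δ i * m := by
  classical
  have hm0 : 0 < m := NeZero.pos m
  have hle := le_tot hqw hw ha ha0 hsum hδ'
  by_cases H : ∃ u : (ZMod m)ˣ, ∑ i, tot a u i + (∑ i, zer a i) * m ≤ (∑ i, δ i) * m
  · right
    obtain ⟨u, hu⟩ := H
    have h1 : ∀ i ∈ Finset.univ, δ i * m = tot a u i + zer a i * m := by
      rw [← Finset.sum_eq_sum_iff_of_le fun i _ => (hle u i).1, Finset.sum_add_distrib,
        ← Finset.sum_mul, ← Finset.sum_mul]
      apply le_antisymm _ hu
      rw [Finset.sum_mul, Finset.sum_mul, ← Finset.sum_add_distrib]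
      exact Finset.sum_le_sum fun i _ => (hle u i).1
    refine ⟨u, fun i => ?_⟩
    have h2 : zer a i = 0 := by
      by_contra h
      exact absurd ((hle u i).2 h) (by rw [h1 i (Finset.mem_univ i)]; exact lt_irrefl _)
    refine ⟨fun j hj => ?_, ?_⟩
    · rw [zer, Finset.card_eq_zero, Finset.filter_eq_empty_iff] at h2
      exact h2 (Finset.mem_univ j) hj
    · have h3 := h1 i (Finset.mem_univ i)
      rw [h2, zero_mul, add_zero] at h3
      exact h3.symm
  · left
    push Not at H
    have hr : Nonempty (Fin r) := by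
      by_contra hcon
      rw [not_nonempty_iff] at hcon
      have := H 1
      simp at this
    have hslots : ∀ D : ℕ, ∀ x, (Finset.univ.filter fun w : {x // a x ≠ 0} × Fin D =>
        w.1.1 = x).card = if a x = 0 then 0 else D := by
      intro D x
      split_ifs with hx
      · rw [Finset.card_eq_zero, Finset.filter_eq_empty_iff]
        rintro ⟨⟨y, hy⟩, c⟩ - h0
        exact hy ((congrArg a (show y = x from h0)).trans hx)
      · have h5 : (Finset.univ.filter fun w : {x // a x ≠ 0} × Fin D => w.1.1 = x) =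
            ({⟨x, hx⟩} : Finset {x // a x ≠ 0}) ×ˢ (Finset.univ : Finset (Fin D)) := by
          ext ⟨⟨y, hy⟩, c⟩
          simp only [Finset.mem_filter, Finset.mem_univ, true_and, Finset.mem_product,
            Finset.mem_singleton, and_true, Subtype.mk.injEq]
        rw [h5, Finset.card_product, Finset.card_singleton, one_mul, Finset.card_univ,
          Fintype.card_fin]
    have hsub : ∀ {M : Type} [AddCommMonoid M] (g : (Σ i, J i) → M),
        (∀ x, a x = 0 → g x = 0) → ∑ x : {x // a x ≠ 0}, g x.1 = ∑ i, ∑ j, g ⟨i, j⟩ := by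
      intro M _ g hg
      rw [← Fintype.sum_sigma' (f := fun i j => g ⟨i, j⟩),
        ← Finset.sum_subtype (Finset.univ.filter fun x => a x ≠ 0) (by simp) g,
        Finset.sum_filter]
      apply Finset.sum_congr rfl
      intro x _
      split_ifs with h
      · rfl
      · push Not at h
        rw [hg x h]
    have hsumS : ∑ x : {x // a x ≠ 0}, a x.1 = 0 := by
      rw [hsub a fun x hx => hx]
      exact Finset.sum_eq_zero fun i _ => hsum i
    have hzs : ∑ i, zer a i + ∑ i, supp a i = ∑ i, Fintype.card (J i) := by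
      rw [← Finset.sum_add_distrib]
      exact Finset.sum_congr rfl fun i _ => zer_add_supp a i
    rcases Nat.lt_or_ge (∑ i, zer a i) (∑ i, δ i) with hlt | hge
    · obtain ⟨κ, hκ⟩ := Nat.exists_eq_add_of_lt hlt
      have hmul : (∑ i, δ i) * m = m * (κ + 1) + (∑ i, zer a i) * m := by
        rw [hκ]
        ring
      have hN : m * (κ + 1) < ∑ x : {x // a x ≠ 0}, max 2 (w x.1) := by
        have h0 : ∀ i, zer a i = 0 → ∑ j, max 2 (w ⟨i, j⟩) =
            ∑ j, (if a ⟨i, j⟩ ≠ 0 then max 2 (w ⟨i, j⟩) else 0) := by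
          intro i hz
          refine Finset.sum_congr rfl fun j _ => ?_
          rw [if_pos]
          intro h
          rw [zer, Finset.card_eq_zero, Finset.filter_eq_empty_iff] at hz
          exact hz (Finset.mem_univ j) h
        have h0' : ∀ i, zer a i ≠ 0 → δ i * m <
            ∑ j, (if a ⟨i, j⟩ ≠ 0 then max 2 (w ⟨i, j⟩) else 0) + zer a i * m := by
          intro i hz
          refine (weights_lt hw (a := a) hδ' hz).trans_le ?_
          rw [Finset.sum_filter]
          apply Nat.add_le_add_right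
          apply Finset.sum_le_sum
          intro j _
          split_ifs
          · exact le_max_right _ _
          · exact le_rfl
        have h1 : ∀ i, δ i * m ≤ ∑ j, (if a ⟨i, j⟩ ≠ 0 then max 2 (w ⟨i, j⟩) else 0) +
            zer a i * m := by
          intro i
          by_cases hz : zer a i = 0
          · rw [hz, zero_mul, add_zero, ← h0 i hz]
            exact hδ i
          · exact (h0' i hz).le
        have h2 : ∑ i, δ i * m < ∑ i, (∑ j, (if a ⟨i, j⟩ ≠ 0 then max 2 (w ⟨i, j⟩) else 0) +
            zer a i * m) := by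
          obtain ⟨i₁, hi₁⟩ := hδs
          refine Finset.sum_lt_sum (fun i _ => h1 i) ⟨i₁, Finset.mem_univ _, ?_⟩
          by_cases hz : zer a i₁ = 0
          · rw [hz, zero_mul, add_zero, ← h0 i₁ hz]
            exact hi₁
          · exact h0' i₁ hz
        rw [Finset.sum_add_distrib, ← Finset.sum_mul, ← Finset.sum_mul, hmul] at h2
        have h3 : ∑ x : {x // a x ≠ 0}, max 2 (w x.1) =
            ∑ i, ∑ j, (if a ⟨i, j⟩ ≠ 0 then max 2 (w ⟨i, j⟩) else 0) := by
          rw [← hsub (fun x => if a x ≠ 0 then max 2 (w x) else 0) fun x hx => by simp [hx]]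
          apply Finset.sum_congr rfl
          intro x _
          rw [if_pos x.2]
        rw [h3]
        omega
      obtain ⟨D, hD, hsplit⟩ := fracW (fun x : {x // a x ≠ 0} => a x.1) (fun x => x.2) hsumS
        (p := fun x => q x.1) (v := fun x => w x.1) (fun x => hqw x.1) (fun x => ha x.1)
        (κ + 1) hN (fun u => by
          rw [hsub (fun x => ((u : ZMod m) * a x).val) fun x hx => by simp [hx]]
          have h1 := H u
          rw [hmul] at h1
          have h2 : m ∣ ∑ i, tot a u i := Finset.dvd_sum fun i _ => dvd_tot hsum u i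
          obtain ⟨c, hc⟩ := h2
          change m * (κ + 1 + 1) ≤ ∑ i, tot a u i
          rw [hc] at h1 ⊢
          apply Nat.mul_le_mul_left
          have h3 : m * (κ + 1) < m * c := by omega
          exact Nat.lt_of_mul_lt_mul_left h3)
      obtain ⟨e, b, h⟩ := build (δ := δ) (a := a) (d := fun _ => D) (fun i _ => ha0 i)
        (Ω := {x // a x ≠ 0} × Fin D) (s := fun w => w.1.1) (hslots D)
        (q := D * (κ + 1) + 1) (by
          rw [← Finset.mul_sum, ← Finset.mul_sum, Finset.sum_add_distrib, ← hzs, hκ]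
          have : D * (∑ i, zer a i + κ + 1 + ∑ i, supp a i) =
            D * (∑ i, zer a i + ∑ i, supp a i) + D * (κ + 1) := by ring
          omega) hsplit
      exact ⟨_, Fin e, inferInstance, inferInstance, inferInstance, inferInstance, _, b, _, h⟩
    · have hne : (Finset.univ : Finset ({x // a x ≠ 0} × Fin 1)).Nonempty := by
        obtain ⟨i⟩ := hr
        obtain ⟨j, hj⟩ := ha0 i
        exact ⟨⟨⟨⟨i, j⟩, hj⟩, 0⟩, Finset.mem_univ _⟩
      obtain ⟨e, b, h⟩ := build (δ := δ) (a := a) (d := fun _ => 1) (fun i _ => ha0 i)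
        (Ω := {x // a x ≠ 0} × Fin 1) (s := fun w => w.1.1) (hslots 1)
        (q := 1) (by
          simp only [one_mul]
          rw [Finset.sum_add_distrib]
          omega) (splits_one hne (by
          rw [Fintype.sum_prod_type]
          simpa using hsumS))
      exact ⟨_, Fin e, inferInstance, inferInstance, inferInstance, inferInstance, _, b, _, h⟩

end Pool.Agent.BBQ
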