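import Pool.Agent.WBP.PatternW

/-!
# Uniqueness of the unit
-/

set_option autoImplicit false

namespace Pool.Agent.BBQ

variable {d : ℕ} [NeZero d] {X : Type} [Fintype X]

/-- two units one of which is twice the other -/
lemma two_mul_absurd {a : X → ZMod d} (ha : ∀ x, a x ≠ 0) {q w : X → ℕ}
    (hqw : ∀ x, q x * w x = d) (hqa : ∀ x, (q x : ZMod d) * a x = 0) {κ : ℕ}
    (hN : κ * (d + 1) < ∑ x, max 2 (w x)) (u u' : (ZMod d)ˣ)
    (hu : ∑ x, ((u : ZMod d) * a x).val = κ * d) (hu' : ∑ x, ((u' : ZMod d) * a x).val = κ * d)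
    (h : (u' : ZMod d) = 2 * (u : ZMod d)) : False := by
  classical
  have hd0 : 0 < d := NeZero.pos d
  have hle : ∀ (v : (ZMod d)ˣ) x, w x ≤ ((v : ZMod d) * a x).val := fun v x =>
    WBP.le_val (hqw x) (by rw [mul_left_comm, hqa, mul_zero])
      fun h => ha x ((Units.mul_right_eq_zero v).1 h)
  have hwpos : ∀ x, 0 < w x := by
    intro x
    rcases Nat.eq_zero_or_pos (w x) with h | h
    · have := hqw x
      rw [h, mul_zero] at this
      omega
    · exact h
  have h1 : ∀ x, ∃ c : ℕ, 2 * ((u : ZMod d) * a x).val = ((u' : ZMod d) * a x).val + d * c ∧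
      max 2 (w x) ≤ ((u' : ZMod d) * a x).val + c := by
    intro x
    set y := (u : ZMod d) * a x with hy
    have hy' : (u' : ZMod d) * a x = ((2 * y.val : ℕ) : ZMod d) := by
      rw [h, mul_assoc, ← hy]
      push_cast
      rw [ZMod.natCast_zmod_val]
    have hlt : y.val < d := ZMod.val_lt y
    have hw := hle u' x
    rw [hy', ZMod.val_natCast] at hw ⊢
    have hwy := hle u x
    rw [← hy] at hwy
    have hw0 := hwpos x
    refine ⟨2 * y.val / d, (Nat.mod_add_div _ _).symm, ?_⟩
    by_cases h2 : 2 * y.val < d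
    · rw [Nat.mod_eq_of_lt h2, Nat.div_eq_of_lt h2]
      omega
    · have h3 : 1 ≤ 2 * y.val / d := (Nat.one_le_div_iff hd0).2 (by omega)
      omega
  choose c hc hc' using h1
  have h2 : ∑ x, c x = κ := by
    have h3 := Finset.sum_congr (rfl : (Finset.univ : Finset X) = Finset.univ) fun x _ => hc x
    rw [← Finset.mul_sum, Finset.sum_add_distrib, ← Finset.mul_sum, hu, hu'] at h3
    have h4 : d * ∑ x, c x = d * κ := by
      have : κ * d = d * κ := mul_comm _ _
      omega
    exact Nat.eq_of_mul_eq_mul_left hd0 h4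
  have h3 := Finset.sum_le_sum fun x (_ : x ∈ Finset.univ) => hc' x
  rw [Finset.sum_add_distrib, hu', h2] at h3
  have : κ * (d + 1) = κ * d + κ := by ring
  omega

/-- **Uniqueness of the unit.** -/
theorem unit_unique {a : X → ZMod d} (ha : ∀ x, a x ≠ 0) {q w : X → ℕ}
    (hqw : ∀ x, q x * w x = d) (hqa : ∀ x, (q x : ZMod d) * a x = 0) {κ : ℕ}
    (hN : κ * d < ∑ x, max 2 (w x)) (hN' : Even d ∨ κ * (d + 1) < ∑ x, max 2 (w x))
    (u u' : (ZMod d)ˣ) (hu : ∑ x, ((u : ZMod d) * a x).val = κ * d)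
    (hu' : ∑ x, ((u' : ZMod d) * a x).val = κ * d) : u' = u := by
  classical
  by_contra hne
  have hd0 : 0 < d := NeZero.pos d
  have key : ∀ v v' : (ZMod d)ˣ, ∑ x, ((v : ZMod d) * a x).val = κ * d →
      ∑ x, ((v' : ZMod d) * a x).val = κ * d → (v' : ZMod d) ≠ 2 * (v : ZMod d) := by
    intro v v' hv hv' h
    rcases hN' with hN' | hN'
    · obtain ⟨c, hc⟩ := hN'
      have h1 : ((c : ℕ) : ZMod d) * (v' : ZMod d) = 0 := by
        rw [h, ← mul_assoc]
        have h2 : ((c : ℕ) : ZMod d) * 2 = ((c + c : ℕ) : ZMod d) := by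
          push_cast
          ring
        rw [h2, ← hc, ZMod.natCast_self, zero_mul]
      have h2 : ((c : ℕ) : ZMod d) = 0 := (Units.mul_left_eq_zero v').1 h1
      rw [ZMod.natCast_eq_zero_iff] at h2
      have h3 := Nat.le_of_dvd (by omega) h2
      omega
    · exact two_mul_absurd ha hqw hqa hN' v v' hv hv' h
  have h12 := key u u' hu hu'
  have h21 := key u' u hu' hu
  have hle : ∀ (v : (ZMod d)ˣ) x, w x ≤ ((v : ZMod d) * a x).val := fun v x =>
    WBP.le_val (hqw x) (by rw [mul_left_comm, hqa, mul_zero])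
      fun h => ha x ((Units.mul_right_eq_zero v).1 h)
  have hpos : ∀ (v : (ZMod d)ˣ) x, 0 < ((v : ZMod d) * a x).val := fun v x =>
    Nat.pos_of_ne_zero fun h => ha x ((Units.mul_right_eq_zero v).1 ((ZMod.val_eq_zero _).1 h))
  have h1 : ∀ x, 2 * max 2 (w x) ≤ ((u : ZMod d) * a x).val + ((u' : ZMod d) * a x).val := by
    intro x
    have e1 := hle u x
    have e2 := hle u' x
    have e3 := hpos u x
    have e4 := hpos u' x
    by_cases hw : 2 ≤ w x
    · rw [max_eq_right hw]
      omega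
    rw [max_eq_left (by omega)]
    by_contra hcon
    push Not at hcon
    -- the possible values
    have h2 : ∀ v : (ZMod d)ˣ, (((v : ZMod d) * a x).val : ZMod d) = (v : ZMod d) * a x :=
      fun v => ZMod.natCast_zmod_val _
    have h3 : (((u : ZMod d) * a x).val = 1 ∧ ((u' : ZMod d) * a x).val = 1) ∨
        (((u : ZMod d) * a x).val = 1 ∧ ((u' : ZMod d) * a x).val = 2) ∨
        (((u : ZMod d) * a x).val = 2 ∧ ((u' : ZMod d) * a x).val = 1) := by omega
    rcases h3 with ⟨f1, f2⟩ | ⟨f1, f2⟩ | ⟨f1, f2⟩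
    · have g1 := h2 u
      have g2 := h2 u'
      rw [f1, Nat.cast_one] at g1
      rw [f2, Nat.cast_one] at g2
      apply hne
      have g3 : IsUnit (a x) := IsUnit.of_mul_eq_one (u : ZMod d) (by rw [mul_comm]; exact g1.symm)
      obtain ⟨α, hα⟩ := g3
      rw [← hα] at g1 g2
      apply Units.ext
      have g4 : (u' : ZMod d) * (α : ZMod d) = (u : ZMod d) * (α : ZMod d) := by rw [← g1, ← g2]
      exact (Units.mul_left_inj α).1 g4
    · have g1 := h2 u
      have g2 := h2 u'
      rw [f1, Nat.cast_one] at g1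
      rw [f2, Nat.cast_ofNat] at g2
      apply h12
      have g3 : IsUnit (a x) := IsUnit.of_mul_eq_one (u : ZMod d) (by rw [mul_comm]; exact g1.symm)
      obtain ⟨α, hα⟩ := g3
      rw [← hα] at g1 g2
      have g4 : (u' : ZMod d) * (α : ZMod d) = 2 * (u : ZMod d) * (α : ZMod d) := by
        rw [mul_assoc, ← g1, mul_one, ← g2]
      exact (Units.mul_left_inj α).1 g4
    · have g1 := h2 u
      have g2 := h2 u'
      rw [f1, Nat.cast_ofNat] at g1
      rw [f2, Nat.cast_one] at g2
      apply h21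
      have g3 : IsUnit (a x) := IsUnit.of_mul_eq_one (u' : ZMod d) (by rw [mul_comm]; exact g2.symm)
      obtain ⟨α, hα⟩ := g3
      rw [← hα] at g1 g2
      have g4 : (u : ZMod d) * (α : ZMod d) = 2 * (u' : ZMod d) * (α : ZMod d) := by
        rw [mul_assoc, ← g2, mul_one, ← g1]
      exact (Units.mul_left_inj α).1 g4
  have h2 := Finset.sum_le_sum fun x (_ : x ∈ Finset.univ) => h1 x
  rw [← Finset.mul_sum, Finset.sum_add_distrib, hu, hu'] at h2
  omega

end Pool.Agent.BBQ
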