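import Pool.Agent.BBQ.Many
import Pool.Agent.BBQ.Unique
import Pool.Agent.BBQ.PatternX
import Pool.Agent.WBP.Pattern

/-!
# The units which belong to single sequences
-/

set_option autoImplicit false

namespace Pool.Agent.BBQ

open Pool.Agent.MPC Pool.Agent.WBP

/-- The sequence `a` is `t * b`, where the sum of the `b x` is `κ * d`. At the coordinates in `A` the
value of `b` is the weight, and blocks can be removed; `t` matters only modulo their orders. -/
structure Loc {X : Type} [Fintype X] [DecidableEq X] {d : ℕ} [NeZero d] (a : X → ZMod d) (κ : ℕ)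
    (q w : X → ℕ) (t : ℕ) (b : X → ℕ) (A : Finset X) : Prop where
  cop : Nat.Coprime t d
  pos : ∀ x, 0 < b x
  dvd : ∀ x, w x ∣ b x
  sum : ∑ x, b x = κ * d
  ne : ∀ x, a x ≠ 0
  rem : ∀ x ∈ A, Rem a κ q x ∧ a x = ((t * w x : ℕ) : ZMod d)
  lift : ∀ T : ℕ, (∀ x ∈ A, T ≡ t [MOD q x]) → ∀ x, a x = ((T * b x : ℕ) : ZMod d)

section One

variable {X : Type} [Fintype X] [DecidableEq X] {d : ℕ} [NeZero d] {a : X → ZMod d} {κ : ℕ}
  {q w : X → ℕ}

omit [Fintype X] [DecidableEq X] in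
lemma weight_pos (hqw : ∀ x, q x * w x = d) (x : X) : 0 < w x := by
  rcases Nat.eq_zero_or_pos (w x) with h | h
  · have := hqw x
    rw [h, mul_zero] at this
    exact absurd this.symm (NeZero.ne d)
  · exact h

omit [Fintype X] [DecidableEq X] in
lemma order_pos (hqw : ∀ x, q x * w x = d) (x : X) : 0 < q x := by
  rcases Nat.eq_zero_or_pos (q x) with h | h
  · have := hqw x
    rw [h, zero_mul] at this
    exact absurd this.symm (NeZero.ne d)
  · exact h

omit [Fintype X] [DecidableEq X] in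
lemma dvd_val (hqw : ∀ x, q x * w x = d) (hqa : ∀ x, (q x : ZMod d) * a x = 0) (u : (ZMod d)ˣ)
    (x : X) : w x ∣ ((u : ZMod d) * a x).val := by
  have h2 : d ∣ q x * ((u : ZMod d) * a x).val := by
    rw [← ZMod.natCast_eq_zero_iff]
    push_cast
    rw [ZMod.natCast_zmod_val, mul_left_comm, hqa, mul_zero]
  exact Nat.dvd_of_mul_dvd_mul_left (order_pos hqw x) ((hqw x).dvd.trans h2)

theorem loc_cy (hqw : ∀ x, q x * w x = d) (hqa : ∀ x, (q x : ZMod d) * a x = 0) (hκ : 1 ≤ κ)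
    (hw : ∑ x, w x = κ * d) {t : ℕ} (ht : Nat.Coprime t d)
    (ha : ∀ x, a x = ((t * w x : ℕ) : ZMod d)) (ha0 : ∀ x, a x ≠ 0) :
    Loc a κ q w t w Finset.univ where
  cop := ht
  pos := weight_pos hqw
  dvd := fun _ => dvd_rfl
  sum := hw
  ne := ha0
  rem := fun x _ => ⟨rem_cy hqw hqa hκ hw x, ha x⟩
  lift := by
    intro T hT x
    rw [ha, ZMod.natCast_eq_natCast_iff]
    have h1 := (hT x (Finset.mem_univ x)).mul_right' (w x)
    rw [hqw] at h1
    exact h1.symm

theorem loc_gt (hqw : ∀ x, q x * w x = d) (hqa : ∀ x, (q x : ZMod d) * a x = 0)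
    (hsum : ∑ x, a x = 0) (hκ : 1 ≤ κ) (hN : κ * d < ∑ x, max 2 (w x)) (ha0 : ∀ x, a x ≠ 0)
    (u : (ZMod d)ˣ) (hu : ∑ x, ((u : ZMod d) * a x).val = κ * d)
    (huniq : ∀ u' : (ZMod d)ˣ, u' ≠ u → d * (κ + 1) ≤ ∑ x, ((u' : ZMod d) * a x).val) :
    ∃ (t : ℕ) (b : X → ℕ) (A : Finset X), Loc a κ q w t b A := by
  classical
  have hle : ∀ x, w x ≤ ((u : ZMod d) * a x).val := fun x =>
    WBP.le_val (hqw x) (by rw [mul_left_comm, hqa, mul_zero])
      fun h => ha0 x ((Units.mul_right_eq_zero u).1 h)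
  have h1 : ∃ j, ((u : ZMod d) * a j).val < max 2 (w j) := by
    by_contra hcon
    push Not at hcon
    have := Finset.sum_le_sum fun x (_ : x ∈ Finset.univ) => hcon x
    omega
  obtain ⟨j, hj⟩ := h1
  have h2 := hle j
  have h3 := weight_pos hqw j
  have hw1 : w j = 1 := by omega
  have hv1 : ((u : ZMod d) * a j).val = 1 := by omega
  have hqj : q j = d := by
    have := hqw j
    rwa [hw1, mul_one] at this
  have hmul : ∀ x, a x = ((u⁻¹ : (ZMod d)ˣ) : ZMod d) *
      ((((u : ZMod d) * a x).val : ℕ) : ZMod d) := by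
    intro x
    rw [ZMod.natCast_zmod_val, ← mul_assoc, Units.inv_mul, one_mul]
  refine ⟨((u⁻¹ : (ZMod d)ˣ) : ZMod d).val, fun x => ((u : ZMod d) * a x).val, {j},
    ZMod.val_coe_unit_coprime _, fun x => ?_, fun x => dvd_val hqw hqa u x, hu, ha0, fun x hx => ?_,
    fun T hT x => ?_⟩
  · exact Nat.pos_of_ne_zero fun h => ha0 x ((Units.mul_right_eq_zero u).1 ((ZMod.val_eq_zero _).1 h))
  · obtain rfl := Finset.mem_singleton.1 hx
    refine ⟨rem_unique ha0 hqw hqa hsum hκ (by rwa [mul_comm]) u hu huniq (by rw [hv1, hw1]), ?_⟩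
    rw [hw1, mul_one, ZMod.natCast_zmod_val]
    conv_lhs => rw [hmul x, hv1, Nat.cast_one, mul_one]
  · have h4 := hT j (Finset.mem_singleton_self j)
    rw [hqj, ← ZMod.natCast_eq_natCast_iff, ZMod.natCast_zmod_val] at h4
    rw [Nat.cast_mul, h4]
    exact hmul x

end One

variable {I : Type} [Fintype I] {X : I → Type} [∀ i, Fintype (X i)] {d : I → ℕ} {M : ℕ}
  [DecidableEq I] [∀ i, DecidableEq (X i)] [∀ i, NeZero (d i)] [NeZero M]

/-- **One sequence.** -/
theorem local_step (hM : ∀ i, d i ∣ M) (a : ∀ i, X i → ZMod (d i)) (κ : I → ℕ)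
    {q w : ∀ i, X i → ℕ} (i : I) (hqw : ∀ x, q i x * w i x = d i) (hw : ∀ x, w i x < d i)
    (hqa : ∀ x, (q i x : ZMod (d i)) * a i x = 0) (ha0 : a i ≠ 0) (hsum : ∑ x, a i x = 0)
    (hκ : 1 ≤ κ i) (h1 : ∀ x, κ i * d i + w i x < ∑ x, w i x + d i)
    (h2 : κ i * d i ≤ ∑ x, w i x ∨ κ i * d i < ∑ x, max 2 (w i x))
    (h3 : κ i * d i ≤ ∑ x, w i x ∨ Even (d i) ∨ κ i * (d i + 1) < ∑ x, max 2 (w i x)) :
    Many hM a κ ∨ ∃ (t : ℕ) (b : X i → ℕ) (A : Finset (X i)), Loc (a i) (κ i) (q i) (w i) t b A := by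
  classical
  have hinj : Function.Injective (fun _ : Fin 1 => i) := fun c c' _ => Subsingleton.elim c c'
  obtain ⟨j₀, hj₀⟩ := Function.ne_iff.1 ha0
  have hd0 : 0 < d i := NeZero.pos (d i)
  by_cases hk : κ i * d i ≤ ∑ x, w i x
  · by_cases hu : (¬ ∃ t : ℕ, Nat.Coprime t (d i) ∧ ∀ x : (Σ _ : Fin 1, X i), a i x.2 ≠ 0 →
        a i x.2 = ((t * w i x.2 : ℕ) : ZMod (d i))) ∨ ∃ (_ : Fin 1) (j : X i), a i j ≠ 0 ∧
          ((∃ j' : X i, a i j' = 0) ∨ κ i * d i < ∑ x, w i x)
    · left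
      exact many_of_pattern hM a κ (hM i) hinj (a' := fun y => a i y.2) (fun y => rfl)
        (exists_pattern_of_ne (J := fun _ : Fin 1 => X i) (q := fun x => q i x.2)
          (w := fun x => w i x.2) (fun x => hqw x.2) hd0 (fun x => hw x.2)
          (a := fun y => a i y.2) (fun x => hqa x.2) (δ := fun _ => κ i) (fun _ _ => hk) hu)
    · right
      push Not at hu
      obtain ⟨⟨t, ht, h4⟩, h5⟩ := hu
      have h6 := h5 0 j₀ hj₀
      exact ⟨t, w i, Finset.univ, loc_cy hqw hqa hκ (le_antisymm h6.2 hk) ht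
        (fun x => h4 ⟨0, x⟩ (h6.1 x)) h6.1⟩
  · have hN : κ i * d i < ∑ x, max 2 (w i x) := h2.resolve_left hk
    have hN' := h3.resolve_left hk
    rcases exists_pattern_or_unit (J := fun _ : Fin 1 => X i) (q := fun x => q i x.2)
      (w := fun x => w i x.2) (fun x => hqw x.2) (fun x => hw x.2) (a := fun x => a i x.2)
      (fun x => hqa x.2) (fun _ => ⟨j₀, hj₀⟩) (fun _ => hsum) (δ := fun _ => κ i)
      (fun _ => hN.le) ⟨0, hN⟩ (fun _ j => h1 j) with h | ⟨u, hu⟩
    · left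
      exact many_of_pattern hM a κ (hM i) hinj (a' := fun y => a i y.2) (fun y => rfl) h
    · right
      have ha : ∀ x, a i x ≠ 0 := (hu 0).1
      have hus : ∑ x, ((u : ZMod (d i)) * a i x).val = κ i * d i := (hu 0).2
      refine loc_gt hqw hqa hsum hκ hN ha u hus fun u' hu' => ?_
      have h4 : d i ∣ ∑ x, ((u' : ZMod (d i)) * a i x).val := by
        rw [← ZMod.natCast_eq_zero_iff, Nat.cast_sum]
        rw [Finset.sum_congr rfl fun x _ => ZMod.natCast_zmod_val _, ← Finset.mul_sum, hsum,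
          mul_zero]
      have h5 : ∑ x, w i x ≤ ∑ x, ((u' : ZMod (d i)) * a i x).val :=
        Finset.sum_le_sum fun x _ => WBP.le_val (hqw x) (by rw [mul_left_comm, hqa, mul_zero])
          fun h => ha x ((Units.mul_right_eq_zero u').1 h)
      obtain ⟨e, he⟩ := h4
      rw [he] at h5 ⊢
      apply Nat.mul_le_mul_left
      have h6 := h1 j₀
      have h7 : d i * κ i < d i * (e + 1) := by
        have : d i * (e + 1) = d i * e + d i := by ring
        have : d i * κ i = κ i * d i := mul_comm _ _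
        omega
      have h8 : κ i < e + 1 := Nat.lt_of_mul_lt_mul_left h7
      rcases Nat.lt_or_ge (κ i) e with h9 | h9
      · exact h9
      · exfalso
        have h10 : e = κ i := by omega
        apply hu'
        apply unit_unique ha hqw hqa hN hN' u u' hus
        rw [he, h10, mul_comm]

end Pool.Agent.BBQ
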