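import Pool.Agent.BBQ.Pair
import Pool.Agent.MPC.Pattern

/-!
# Families of sequences with many blocks
-/

set_option autoImplicit false

namespace Pool.Agent.BBQ

open Pool.Agent.MPC

/-- a pattern gives a packing -/
theorem pack_of_pattern {r : ℕ} {J : Fin r → Type} [∀ i, Fintype (J i)] [∀ i, DecidableEq (J i)]
    {m : ℕ} {a : (Σ i, J i) → ZMod m} {δ : Fin r → ℕ} {Ω 𝔅 : Type} [Fintype Ω] [Fintype 𝔅]
    [DecidableEq Ω] [DecidableEq 𝔅] {s : Ω → Σ i, J i} {b : Ω → 𝔅} {d : Fin r → ℕ}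
    (h : Pattern a δ s b d) :
    Pack a (fun x => if a x = 0 then 0 else d x.1) (Fintype.card 𝔅) := by
  classical
  let e : Fin (Fintype.card 𝔅) ≃ 𝔅 := (Fintype.equivFin 𝔅).symm
  refine ⟨Fintype.card 𝔅, fun B x => (Finset.univ.filter fun w => b w = e B ∧ s w = x).card,
    le_rfl, fun B => ?_, fun B => ?_, fun x => ?_⟩
  · obtain ⟨w, hw⟩ := h.surj (e B)
    refine ⟨s w, ?_⟩
    rw [← Nat.pos_iff_ne_zero]
    exact Finset.card_pos.2 ⟨w, by simp [hw]⟩
  · rw [← h.zero_sum (e B), ← Finset.sum_fiberwise (Finset.univ.filter fun w => b w = e B) s]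
    apply Finset.sum_congr rfl
    intro x _
    rw [Finset.filter_filter, Finset.sum_congr rfl (g := fun _ => a x) (fun w hw => by
      rw [(Finset.mem_filter.1 hw).2.2]), Finset.sum_const]
  · change ∑ B, (Finset.univ.filter fun w => b w = e B ∧ s w = x).card =
      if a x = 0 then 0 else d x.1
    rw [← h.slots x, Equiv.sum_comp e fun B => (Finset.univ.filter fun w => b w = B ∧ s w = x).card,
      Finset.card_eq_sum_card_fiberwise (f := b) (t := Finset.univ)
        (s := Finset.univ.filter fun w => s w = x) (fun w _ => Finset.mem_univ _)]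
    apply Finset.sum_congr rfl
    intro B _
    rw [Finset.filter_filter]
    congr 1
    ext w
    simp only [Finset.mem_filter, Finset.mem_univ, true_and]
    exact and_comm

variable {I : Type} [Fintype I] {X : I → Type} [∀ i, Fintype (X i)] {d : I → ℕ} {M : ℕ}

/-- there is a packing with many blocks -/
def Many (hM : ∀ i, d i ∣ M) (a : ∀ i, X i → ZMod (d i)) (κ : I → ℕ) : Prop :=
  ∃ (D : I → ℕ) (q : ℕ), (∀ i, D i ≠ 0 → a i ≠ 0) ∧
    Pack (fam hM a) (fun y => if a y.1 y.2 = 0 then 0 else D y.1) q ∧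
    ∑ i, D i * (κ i + (Finset.univ.filter fun x => a i x ≠ 0).card) <
      ∑ i, D i * Fintype.card (X i) + q

variable [DecidableEq I] [∀ i, DecidableEq (X i)] [∀ i, NeZero (d i)] [NeZero M]

/-- **Patterns of some of the sequences.** -/
theorem many_of_pattern (hM : ∀ i, d i ∣ M) (a : ∀ i, X i → ZMod (d i)) (κ : I → ℕ) {R m : ℕ}
    [NeZero m] (hm : m ∣ M) {ρ : Fin R → I} (hρ : Function.Injective ρ)
    {a' : (Σ c : Fin R, X (ρ c)) → ZMod m} (ha' : ∀ y, fam hM a ⟨ρ y.1, y.2⟩ = emb hm (a' y))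
    (h : ∃ (Ω 𝔅 : Type) (_ : Fintype Ω) (_ : Fintype 𝔅) (_ : DecidableEq Ω) (_ : DecidableEq 𝔅)
      (s : Ω → Σ c : Fin R, X (ρ c)) (b : Ω → 𝔅) (D : Fin R → ℕ),
      Pattern a' (fun c => κ (ρ c)) s b D) : Many hM a κ := by
  classical
  obtain ⟨Ω, 𝔅, _, _, _, _, s, b, D, h⟩ := h
  have h0 : ∀ y : (Σ c : Fin R, X (ρ c)), a (ρ y.1) y.2 = 0 ↔ a' y = 0 := by
    intro y
    have h1 := ha' y
    change emb (hM (ρ y.1)) (a (ρ y.1) y.2) = _ at h1
    constructor
    · intro h2
      rw [h2, map_zero] at h1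
      exact emb_eq_zero hm h1.symm
    · intro h2
      rw [h2, map_zero] at h1
      exact emb_eq_zero _ h1
  let E : I → ℕ := fun i => ∑ c, if ρ c = i then D c else 0
  have hE : ∀ c, E (ρ c) = D c := by
    intro c
    change ∑ c', (if ρ c' = ρ c then D c' else 0) = D c
    rw [Finset.sum_eq_single c]
    · simp
    · intro c' _ hc'
      rw [if_neg fun h' => hc' (hρ h')]
    · simp
  have hE' : ∀ i, (∀ c, ρ c ≠ i) → E i = 0 := fun i hi =>
    Finset.sum_eq_zero fun c _ => if_neg (hi c)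
  have hsum : ∀ f : I → ℕ, ∑ i, E i * f i = ∑ c, D c * f (ρ c) := by
    intro f
    change ∑ i, (∑ c, if ρ c = i then D c else 0) * f i = _
    simp only [Finset.sum_mul]
    rw [Finset.sum_comm]
    apply Finset.sum_congr rfl
    intro c _
    rw [Finset.sum_eq_single (ρ c)]
    · simp
    · intro i _ hi
      rw [if_neg (Ne.symm hi), zero_mul]
    · simp
  refine ⟨E, Fintype.card 𝔅, fun i hi => ?_, ?_, ?_⟩
  · by_cases hc : ∃ c, ρ c = i
    · obtain ⟨c, rfl⟩ := hc
      rw [hE] at hi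
      obtain ⟨j, hj⟩ := h.proper c hi
      intro h1
      exact hj ((h0 ⟨c, j⟩).1 (congrFun h1 j))
    · push Not at hc
      exact absurd (hE' i hc) hi
  · refine (pack_of_pattern h).map (emb hm) (fun y => (⟨ρ y.1, y.2⟩ : Σ i, X i)) ?_ ha' ?_ ?_
    · rintro ⟨c, x⟩ ⟨c', x'⟩ h1
      obtain rfl : c = c' := hρ (Sigma.mk.inj h1).1
      obtain rfl : x = x' := eq_of_heq (Sigma.mk.inj h1).2
      rfl
    · intro y
      change (if a (ρ y.1) y.2 = 0 then 0 else E (ρ y.1)) = if a' y = 0 then 0 else D y.1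
      rw [hE]
      by_cases hy : a' y = 0
      · rw [if_pos hy, if_pos ((h0 y).2 hy)]
      · rw [if_neg hy, if_neg fun h' => hy ((h0 y).1 h')]
    · rintro ⟨i, x⟩ hy
      have h1 : ∀ c, ρ c ≠ i := by
        rintro c rfl
        exact hy ⟨c, x⟩ rfl
      change (if a i x = 0 then 0 else E i) = 0
      rw [hE' i h1]
      split_ifs <;> rfl
  · rw [hsum, hsum]
    refine lt_of_eq_of_lt ?_ h.many
    apply Finset.sum_congr rfl
    intro c _
    congr 3
    apply Finset.filter_congr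
    intro x _
    exact not_congr (h0 ⟨c, x⟩)

end Pool.Agent.BBQ
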