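import Pool.Agent.WBP.PatternW
import Pool.Agent.WBP.Blocks

/-!
# Packings

A packing of the sequence which contains every `a x` with the multiplicity `D x` is a division of
it into zero-sum blocks. The blocks are given by the multiplicities of the coordinates in them.
-/

set_option autoImplicit false

namespace Pool.Agent.BBQ

open Pool.Agent.SavChen

variable {X : Type} [Fintype X] {A : Type} [AddCommMonoid A]

/-- the sequence with the multiplicities `D x` can be divided into at least `q` zero-sum blocks -/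
def Pack (a : X → A) (D : X → ℕ) (q : ℕ) : Prop :=
  ∃ (e : ℕ) (n : Fin e → X → ℕ), q ≤ e ∧ (∀ B, ∃ x, n B x ≠ 0) ∧ (∀ B, ∑ x, n B x • a x = 0) ∧
    ∀ x, ∑ B, n B x = D x

theorem Pack.mono {a : X → A} {D : X → ℕ} {q q' : ℕ} (h : Pack a D q) (hq : q' ≤ q) :
    Pack a D q' := by
  obtain ⟨e, n, h1, h2⟩ := h
  exact ⟨e, n, hq.trans h1, h2⟩

theorem Pack.zero (a : X → A) : Pack a 0 0 :=
  ⟨0, fun B => B.elim0, le_rfl, fun B => B.elim0, fun B => B.elim0, fun _ => by simp⟩

theorem Pack.add {a : X → A} {D D' : X → ℕ} {q q' : ℕ} (h : Pack a D q) (h' : Pack a D' q') :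
    Pack a (D + D') (q + q') := by
  obtain ⟨e, n, h1, h2, h3, h4⟩ := h
  obtain ⟨e', n', h1', h2', h3', h4'⟩ := h'
  refine ⟨e + e', Fin.append n n', by omega, fun B => ?_, fun B => ?_, fun x => ?_⟩
  · refine Fin.addCases (fun i => ?_) (fun i => ?_) B
    · rw [Fin.append_left]
      exact h2 i
    · rw [Fin.append_right]
      exact h2' i
  · refine Fin.addCases (fun i => ?_) (fun i => ?_) B
    · rw [Fin.append_left]
      exact h3 i
    · rw [Fin.append_right]
      exact h3' i
  · rw [Fin.sum_univ_add]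
    simp only [Fin.append_left, Fin.append_right]
    rw [h4, h4']
    rfl

theorem Pack.smul {a : X → A} {D : X → ℕ} {q : ℕ} (h : Pack a D q) (k : ℕ) :
    Pack a (fun x => k * D x) (k * q) := by
  induction k with
  | zero =>
    have h1 : (fun x => 0 * D x) = (0 : X → ℕ) := by
      funext x
      simp
    rw [h1, zero_mul]
    exact Pack.zero a
  | succ k ih =>
    have h1 : (fun x => (k + 1) * D x) = (fun x => k * D x) + D := by
      funext x
      rw [Pi.add_apply, Nat.succ_mul]
    rw [h1, Nat.succ_mul]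
    exact ih.add h

theorem Pack.block {a : X → A} {T : X → ℕ} (hT : ∃ x, T x ≠ 0) (hs : ∑ x, T x • a x = 0) :
    Pack a T 1 :=
  ⟨1, fun _ => T, le_rfl, fun _ => hT, fun _ => hs, fun _ => by simp⟩

/-- images of packings -/
theorem Pack.map {Y : Type} [Fintype Y] [DecidableEq Y] {B : Type} [AddCommMonoid B] (φ : A →+ B)
    (ι : X → Y) (hι : Function.Injective ι) {a : X → A} {a' : Y → B}
    (ha : ∀ x, a' (ι x) = φ (a x)) {D : X → ℕ} {D' : Y → ℕ} (hD : ∀ x, D' (ι x) = D x)
    (hD' : ∀ y, (∀ x, ι x ≠ y) → D' y = 0) {q : ℕ} (h : Pack a D q) : Pack a' D' q := by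
  classical
  obtain ⟨e, n, h1, h2, h3, h4⟩ := h
  have key : ∀ {M : Type} [AddCommMonoid M] (f : X → M) (g : Y → M), (∀ x, g (ι x) = f x) →
      (∀ y, (∀ x, ι x ≠ y) → g y = 0) → ∑ y, g y = ∑ x, f x := by
    intro M _ f g hg hg'
    rw [← Finset.sum_congr rfl fun x _ => hg x]
    symm
    rw [← Finset.sum_image (s := Finset.univ) (g := ι) (f := g) fun x _ x' _ h => hι h]
    apply Finset.sum_subset (Finset.subset_univ _)
    intro y _ hy
    apply hg'
    intro x hx
    exact hy (Finset.mem_image.2 ⟨x, Finset.mem_univ _, hx⟩)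
  let N : Fin e → Y → ℕ := fun B y => ∑ x, if ι x = y then n B x else 0
  have hN : ∀ B x, N B (ι x) = n B x := by
    intro B x
    change ∑ x', (if ι x' = ι x then n B x' else 0) = _
    rw [Finset.sum_eq_single x]
    · simp
    · intro x' _ hx'
      rw [if_neg fun h => hx' (hι h)]
    · simp
  have hN' : ∀ B y, (∀ x, ι x ≠ y) → N B y = 0 := by
    intro B y hy
    change ∑ x', (if ι x' = y then n B x' else 0) = _
    exact Finset.sum_eq_zero fun x _ => if_neg (hy x)
  refine ⟨e, N, h1, fun B => ?_, fun B => ?_, fun y => ?_⟩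
  · obtain ⟨x, hx⟩ := h2 B
    exact ⟨ι x, by rwa [hN]⟩
  · rw [key (fun x => n B x • φ (a x)) (fun y => N B y • a' y) (fun x => by rw [hN, ha])
      (fun y hy => by rw [hN' B y hy, zero_smul]), ← map_zero φ, ← h3 B, map_sum]
    simp only [map_nsmul]
  · by_cases hy : ∃ x, ι x = y
    · obtain ⟨x, rfl⟩ := hy
      rw [hD, ← h4]
      exact Finset.sum_congr rfl fun B _ => hN B x
    · push Not at hy
      rw [hD' y hy]
      exact Finset.sum_eq_zero fun B _ => hN' B y hy

/-- the slots -/
theorem sum_sigma_fin {M : Type} [AddCommMonoid M] (D : X → ℕ) (f : X → M) :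
    ∑ w : (Σ x : X, Fin (D x)), f w.1 = ∑ x, D x • f x := by
  rw [Fintype.sum_sigma]
  simp

/-- splittings give packings -/
theorem pack_of_splits {m : ℕ} [DecidableEq X] (a : X → ZMod m) (D : X → ℕ) (D' : ℕ) {q : ℕ}
    (h : Splits (fun w : (Σ x : X, Fin (D x)) × Fin D' => a w.1.1) Finset.univ q) :
    Pack a (fun x => D' * D x) q := by
  classical
  obtain ⟨e, b, h1, h2, h3, h4⟩ := h
  let n : Fin e → X → ℕ := fun B x =>
    (Finset.univ.filter fun w : (Σ x : X, Fin (D x)) × Fin D' => b w = B.1 ∧ w.1.1 = x).card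
  refine ⟨e, n, h1, fun B => ?_, fun B => ?_, fun x => ?_⟩
  · obtain ⟨w, -, hw⟩ := h3 B.1 B.2
    refine ⟨w.1.1, ?_⟩
    rw [← Nat.pos_iff_ne_zero]
    exact Finset.card_pos.2 ⟨w, by simp [hw]⟩
  · rw [← h4 B.1 B.2, ← Finset.sum_fiberwise (Finset.univ.filter fun w => b w = B.1)
      (fun w : (Σ x : X, Fin (D x)) × Fin D' => w.1.1)]
    apply Finset.sum_congr rfl
    intro x _
    rw [Finset.filter_filter, Finset.sum_congr rfl (g := fun _ => a x) (fun w hw => by
      rw [(Finset.mem_filter.1 hw).2.2]), Finset.sum_const]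
  · change ∑ B : Fin e, (Finset.univ.filter fun w : (Σ x : X, Fin (D x)) × Fin D' =>
      b w = B.1 ∧ w.1.1 = x).card = D' * D x
    have h5 : (Finset.univ.filter fun w : (Σ x : X, Fin (D x)) × Fin D' => w.1.1 = x).card =
        D' * D x := by
      have h6 : (Finset.univ.filter fun w : (Σ x : X, Fin (D x)) × Fin D' => w.1.1 = x) =
          (Finset.univ.filter fun w : (Σ x : X, Fin (D x)) => w.1 = x) ×ˢ
            (Finset.univ : Finset (Fin D')) := by
        ext w
        simp
      rw [h6, Finset.card_product, Finset.card_univ, Fintype.card_fin, mul_comm]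
      congr 1
      rw [Finset.card_filter, Fintype.sum_sigma, Finset.sum_eq_single x]
      · simp
      · intro y _ hy
        apply Finset.sum_eq_zero
        intro l _
        rw [if_neg hy]
      · simp
    rw [← h5, Finset.card_eq_sum_card_fiberwise
      (s := Finset.univ.filter fun w : (Σ x : X, Fin (D x)) × Fin D' => w.1.1 = x)
      (f := fun w => (⟨b w, h2 w (Finset.mem_univ w)⟩ : Fin e)) (t := Finset.univ)
      (fun w _ => Finset.mem_univ _)]
    apply Finset.sum_congr rfl
    intro B _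
    rw [Finset.filter_filter]
    congr 1
    ext w
    simp only [Finset.mem_filter, Finset.mem_univ, true_and, Fin.ext_iff]
    exact and_comm

/-- **Fractional packings.** -/
theorem frac_pack {m : ℕ} [NeZero m] [DecidableEq X] (a : X → ZMod m) (ha : ∀ x, a x ≠ 0)
    {p v : X → ℕ} (hpv : ∀ x, p x * v x = m) (hpa : ∀ x, (p x : ZMod m) * a x = 0) (D : X → ℕ)
    (hsum : ∑ x, D x • a x = 0) (κ : ℕ) (hN : m * κ < ∑ x, D x * max 2 (v x))
    (hq : ∀ u : (ZMod m)ˣ, m * (κ + 1) ≤ ∑ x, D x * ((u : ZMod m) * a x).val) :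
    ∃ D', 0 < D' ∧ Pack a (fun x => D' * D x) (D' * κ + 1) := by
  obtain ⟨D', hD', h⟩ := Pool.Agent.WBP.fracW (J := Σ x : X, Fin (D x)) (fun w => a w.1)
    (fun w => ha w.1) (by rw [sum_sigma_fin D a, hsum]) (p := fun w => p w.1)
    (v := fun w => v w.1) (fun w => hpv w.1) (fun w => hpa w.1) κ (by
      rw [sum_sigma_fin D fun x => max 2 (v x)]
      simpa using hN) (fun u => by
      rw [sum_sigma_fin D fun x => ((u : ZMod m) * a x).val]
      simpa using hq u)
  exact ⟨D', hD', pack_of_splits a D D' h⟩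

end Pool.Agent.BBQ
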