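import Pool.Agent.BBQ.Pack

/-!
# Removing blocks at one coordinate

If the coordinate `j` has the smallest possible value then removing `e` blocks, each of which
consists of `q j` copies of the coordinate `j`, decreases the (fractional) packing number of the
sequence only by `e`.
-/

set_option autoImplicit false

namespace Pool.Agent.BBQ

variable {d : ℕ} [NeZero d] {X : Type} [Fintype X] [DecidableEq X]

/-- the packing number of the sequence without `e` blocks at `j` -/
def Rem (a : X → ZMod d) (κ : ℕ) (q : X → ℕ) (j : X) : Prop :=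
  ∀ e D : ℕ, d ∣ D → e * d < D → ∃ D', 0 < D' ∧
    Pack a (fun x => D' * (D - if x = j then e * q j else 0)) (D' * (D * κ - e - 1) + 1)

omit [NeZero d] in
lemma sum_rem {c D : ℕ} (hc : c ≤ D) (j : X) (f : X → ℕ) :
    ∑ x, (D - if x = j then c else 0) * f x + c * f j = D * ∑ x, f x := by
  have h1 : c * f j = ∑ x, (if x = j then c else 0) * f x := by
    rw [Finset.sum_eq_single j]
    · simp
    · intro x _ hx
      rw [if_neg hx, zero_mul]
    · simp
  rw [h1, ← Finset.sum_add_distrib, Finset.mul_sum]
  apply Finset.sum_congr rfl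
  intro x _
  rw [← add_mul]
  congr 1
  split_ifs <;> omega

/-- sequences with a unique unit -/
theorem rem_unique {a : X → ZMod d} (ha : ∀ x, a x ≠ 0) {q w : X → ℕ} (hqw : ∀ x, q x * w x = d)
    (hqa : ∀ x, (q x : ZMod d) * a x = 0) (hsum : ∑ x, a x = 0) {κ : ℕ} (hκ : 1 ≤ κ)
    (hN : d * κ < ∑ x, max 2 (w x)) (u : (ZMod d)ˣ)
    (hu : ∑ x, ((u : ZMod d) * a x).val = κ * d)
    (huniq : ∀ u' : (ZMod d)ˣ, u' ≠ u → d * (κ + 1) ≤ ∑ x, ((u' : ZMod d) * a x).val) {j : X}
    (hj : ((u : ZMod d) * a j).val = w j) : Rem a κ q j := by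
  intro e D _ hD
  have hd0 : 0 < d := NeZero.pos d
  have hwpos : ∀ x, 0 < w x := by
    intro x
    rcases Nat.eq_zero_or_pos (w x) with h | h
    · have := hqw x
      rw [h, mul_zero] at this
      omega
    · exact h
  have hqd : q j ≤ d := by
    have := Nat.mul_le_mul_left (q j) (hwpos j)
    rw [hqw j] at this
    omega
  have hc : e * q j ≤ D := (Nat.mul_le_mul_left e hqd).trans hD.le
  have hDκ : D ≤ D * κ := Nat.le_mul_of_pos_right D hκ
  have hed : e ≤ e * d := Nat.le_mul_of_pos_right e hd0
  obtain ⟨κ', hκ'⟩ : ∃ κ', D * κ = κ' + e + 1 := ⟨D * κ - e - 1, by omega⟩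
  have hκ'' : D * κ - e - 1 = κ' := by omega
  rw [hκ'']
  apply frac_pack a ha hqw hqa
  · have h1 : ∑ x, (D - if x = j then e * q j else 0) • a x + (e * q j) • a j =
        D • ∑ x, a x := by
      rw [Finset.smul_sum]
      have h2 : (e * q j) • a j = ∑ x, (if x = j then e * q j else 0) • a x := by
        rw [Finset.sum_eq_single j]
        · simp
        · intro x _ hx
          rw [if_neg hx, zero_smul]
        · simp
      rw [h2, ← Finset.sum_add_distrib]
      apply Finset.sum_congr rfl
      intro x _
      rw [← add_smul]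
      congr 1
      split_ifs <;> omega
    have h2 : (e * q j) • a j = 0 := by
      rw [mul_smul, nsmul_eq_mul (q j), hqa, smul_zero]
    rwa [h2, add_zero, hsum, smul_zero] at h1
  · have h1 := sum_rem hc j fun x => max 2 (w x)
    have h2 : D * (d * κ + 1) ≤ D * ∑ x, max 2 (w x) := Nat.mul_le_mul_left D hN
    have h3 : e * q j * max 2 (w j) ≤ 2 * (e * d) := by
      have h4 : q j * max 2 (w j) ≤ 2 * d := by
        rcases max_cases 2 (w j) with ⟨h, -⟩ | ⟨h, -⟩
        · rw [h]
          omega
        · rw [h, hqw j]
          omega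
      calc e * q j * max 2 (w j) = e * (q j * max 2 (w j)) := by ring
        _ ≤ e * (2 * d) := Nat.mul_le_mul_left e h4
        _ = 2 * (e * d) := by ring
    have h4 : D * (d * κ + 1) = d * (D * κ) + D := by ring
    have h5 : d * (D * κ) = d * κ' + e * d + d := by
      rw [hκ']
      ring
    omega
  · intro u'
    have h1 := sum_rem hc j fun x => ((u' : ZMod d) * a x).val
    have h5 : d * (D * κ) = d * (κ' + 1) + e * d := by
      rw [hκ']
      ring
    by_cases h : u' = u
    · subst h
      rw [hu] at h1
      have h6 : e * q j * ((u' : ZMod d) * a j).val = e * d := by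
        rw [hj, mul_assoc, hqw j]
      have h7 : D * (κ * d) = d * (D * κ) := by ring
      omega
    · have h2 := Nat.mul_le_mul_left D (huniq u' h)
      have h3 : e * q j * ((u' : ZMod d) * a j).val ≤ e * d * d :=
        Nat.mul_le_mul (Nat.mul_le_mul_left e hqd) (ZMod.val_lt _).le
      have h4 : e * d * d ≤ D * d := Nat.mul_le_mul_right d hD.le
      have h7 : D * (d * (κ + 1)) = d * (D * κ) + D * d := by ring
      omega

omit [NeZero d] in
/-- packings by the blocks at single coordinates -/
theorem pack_normal {a : X → ZMod d} {q : X → ℕ} (hq : ∀ x, q x ≠ 0)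
    (hqa : ∀ x, (q x : ZMod d) * a x = 0) (k : X → ℕ) :
    Pack a (fun x => k x * q x) (∑ x, k x) := by
  have key : ∀ s : Finset X, Pack a (fun x => if x ∈ s then k x * q x else 0) (∑ x ∈ s, k x) := by
    intro s
    induction s using Finset.induction_on with
    | empty =>
      simp only [Finset.notMem_empty, if_false, Finset.sum_empty]
      exact Pack.zero a
    | insert x s hx ih =>
      have h1 : Pack a (Pi.single x (q x)) 1 := by
        apply Pack.block ⟨x, by simpa using hq x⟩
        rw [Finset.sum_eq_single x]
        · rw [Pi.single_eq_same, nsmul_eq_mul, hqa]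
        · intro y _ hy
          rw [Pi.single_eq_of_ne hy, zero_smul]
        · simp
      have h2 := (h1.smul (k x)).add ih
      rw [mul_one] at h2
      rw [Finset.sum_insert hx]
      have h3 : (fun y => if y ∈ insert x s then k y * q y else 0) =
          (fun y => k x * (Pi.single x (q x) : X → ℕ) y) +
            fun y => if y ∈ s then k y * q y else 0 := by
        funext y
        rw [Pi.add_apply]
        by_cases hy : y = x
        · subst hy
          simp [hx]
        · simp [hy]
      rw [h3]
      exact h2
  have := key Finset.univ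
  simpa using this

/-- sequences of Calabi-Yau type -/
theorem rem_cy {a : X → ZMod d} {q w : X → ℕ} (hqw : ∀ x, q x * w x = d)
    (hqa : ∀ x, (q x : ZMod d) * a x = 0) {κ : ℕ} (hκ : 1 ≤ κ) (hw : ∑ x, w x = κ * d) (j : X) :
    Rem a κ q j := by
  intro e D hdD hD
  have hd0 : 0 < d := NeZero.pos d
  obtain ⟨c, rfl⟩ := hdD
  have hwpos : ∀ x, 0 < w x := by
    intro x
    rcases Nat.eq_zero_or_pos (w x) with h | h
    · have := hqw x
      rw [h, mul_zero] at this
      omega
    · exact h
  have hq : ∀ x, q x ≠ 0 := by
    intro x h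
    have := hqw x
    rw [h, zero_mul] at this
    omega
  have hec : e < c := by
    rw [mul_comm d c] at hD
    exact Nat.lt_of_mul_lt_mul_right hD
  have hecw : e ≤ c * w j := hec.le.trans (Nat.le_mul_of_pos_right c (hwpos j))
  have h1 := pack_normal hq hqa (fun x => c * w x - if x = j then e else 0)
  refine ⟨1, one_pos, ?_⟩
  have h2 : (fun x => (c * w x - if x = j then e else 0) * q x) =
      fun x => 1 * (d * c - if x = j then e * q j else 0) := by
    funext x
    rw [one_mul, Nat.sub_mul]
    have h3 : c * w x * q x = d * c := by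
      rw [mul_assoc, mul_comm (w x), hqw, mul_comm]
    rw [h3]
    split_ifs with h
    · rw [h]
    · rw [zero_mul]
  rw [h2] at h1
  apply h1.mono
  have h3 : ∑ x, (c * w x - if x = j then e else 0) + e = c * (κ * d) := by
    rw [← hw, Finset.mul_sum]
    have h4 : e = ∑ x, (if x = j then e else 0) := by
      rw [Finset.sum_ite_eq' Finset.univ j]
      simp
    conv_lhs => rw [h4]
    conv_lhs =>
      enter [1, 2, x, 2]
      rw [← h4]
    rw [← Finset.sum_add_distrib]
    apply Finset.sum_congr rfl
    intro x _
    split_ifs with h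
    · rw [h]
      omega
    · omega
  have h4 : d * c * κ = c * (κ * d) := by ring
  have h5 : c ≤ c * (κ * d) := Nat.le_mul_of_pos_right c (Nat.mul_pos hκ hd0)
  rw [one_mul, h4]
  omega

end Pool.Agent.BBQ
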